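import Pool.Agent.T2h42.R.Dense

/-!
The improvement of the exponent.
-/

set_option autoImplicit false

namespace Pool.Agent.T2h42.R

open Finset
open Pool.Agent.T2h42.Tree
open H633R5.FS (Psi Psi_nonneg Psi_one Psi_le Psi_le_log_two)

theorem join_num {γ δ a C l1 l0 lA m1 m0 m h x g l y₀ ε : ℝ}
    (hγ : 1 ≤ γ) (hε : 0 < ε) (hδ : ε ≤ δ) (ha : a = 1 - ε / 2) (hx : 0 < x) (hx1 : x < 1)
    (hh : 0 ≤ h) (hh2 : h ≤ Real.log 2)
    (F1 : x * l1 + (1 - x) * l0 = lA - h) (F2 : x * m1 + (1 - x) * m0 ≤ m - h)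
    (F3 : m1 ≤ m) (hl : 0 < l) (hyl : y₀ * l = 2 * Real.log 2)
    (hcase : (a * h ≤ g) ∨ (0 ≤ g ∧ y₀ ≤ 1 - x ∧ m0 + l ≤ m)) :
    (1 + γ) * lA - (γ + δ) * m - C ≤
      x * ((1 + γ) * l1 - (γ + δ) * m1 - C) + (1 - x) * ((1 + γ) * l0 - (γ + δ) * m0 - C) + g := by
  have hlog2 : 0 < Real.log 2 := Real.log_pos (by norm_num)
  set CE : ℝ := m - (x * m1 + (1 - x) * m0) with hCE
  have c1 : h ≤ CE := by linarith
  have key : 0 ≤ -(1 + γ) * h + (γ + δ) * CE + g := by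
    rcases hcase with hc | ⟨hg, hy, hc⟩
    · rw [ha] at hc
      have d1 : (γ + δ) * h ≤ (γ + δ) * CE := mul_le_mul_of_nonneg_left c1 (by linarith)
      have d2 : 0 ≤ (δ - ε / 2) * h := mul_nonneg (by linarith) hh
      nlinarith
    · have h1 := mul_le_mul_of_nonneg_left F3 hx.le
      have h2 := mul_le_mul_of_nonneg_left hc (by linarith : 0 ≤ 1 - x)
      have h3 : y₀ * l ≤ (1 - x) * l := mul_le_mul_of_nonneg_right hy hl.le
      have h4 : 2 * h ≤ CE := by rw [hCE]; linarith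
      have d1 : (γ + δ) * (2 * h) ≤ (γ + δ) * CE := mul_le_mul_of_nonneg_left h4 (by linarith)
      have d2 : 0 ≤ (γ - 1) * h := mul_nonneg (by linarith) hh
      have d3 : 0 ≤ δ * h := mul_nonneg (by linarith) hh
      nlinarith
  have e1 : (1 + γ) * (x * l1 + (1 - x) * l0) = (1 + γ) * (lA - h) := by rw [F1]
  nlinarith

theorem boot (hS : S_SPLIT) (hE1 : S_E1) (hE3 : S_E3) (hI : S_INJ) {e ε δ γ C y₀ τ β : ℝ}
    (he : 0 < e) (hε : 0 < ε) (hεδ : ε ≤ δ) (hγ : 1 ≤ γ) (hC : 0 ≤ C)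
    (hy₀ : 0 < y₀) (hy₁ : y₀ ≤ 1 / 4) (hτ : 0 < τ) (hβ : 0 < β)
    (hloc : LocP (1 - ε / 2) e y₀ τ β) (hCL : CL e δ γ C) :
    ∃ γ₁ C₁ : ℝ, γ ≤ γ₁ ∧ C ≤ C₁ ∧ ∀ (δ' : ℝ), ε ≤ δ' → δ - ε * y₀ ^ 2 / 16 ≤ δ' →
      CL e δ' γ₁ C₁ := by
  obtain ⟨γ₁, C₁, hγ₁, hC₁, hdense⟩ := dense hS hE1 hE3 hI he hε hεδ hγ hC hy₀ hy₁ hτ hβ hloc hCL
  refine ⟨γ₁, C₁, hγ₁, hC₁, fun δ' h1 h2 => ?_⟩
  have hlog2 : 0 < Real.log 2 := Real.log_pos (by norm_num)
  set l : ℝ := 2 * Real.log 2 / y₀ with hl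
  have hl0 : 0 < l := by positivity
  have hyl : y₀ * l = 2 * Real.log 2 := by rw [hl]; field_simp
  have hδ'0 : 0 ≤ δ' := by linarith
  have hγ0 : 0 ≤ γ₁ + δ' := by linarith
  have key : ∀ n : ℕ, ∀ M : Finset ℕ, M.card = n → Glc M → ∀ A : Finset ℕ, A ⊆ M → A.Nonempty →
      ∃ μ : ℕ → ℝ, Law A μ ∧ (∀ a, μ a * A.card ≤ Real.exp C₁) ∧
        Good e A μ ((1 + γ₁) * Real.log A.card - (γ₁ + δ') * Real.log M.card - C₁) := by
    intro n
    induction n using Nat.strong_induction_on with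
    | _ n ih =>
    intro M hMn hM A hA hAn
    obtain ⟨o, ho, hod⟩ := hM.bot
    by_cases hex : ∃ p ∈ atoms M o, ((A.filter fun a => ¬ p ∣ a).card : ℝ) ≤ y₀ * A.card ∨
        ((M.filter fun a => ¬ p ∣ a).card : ℝ) ≤ Real.exp (-l) * M.card
    swap
    · push Not at hex
      exact hdense δ' hδ'0 h2 M o hM ho hod A hA hAn (fun p hp => (hex p hp).1.le)
        fun p hp => (hex p hp).2.le
    obtain ⟨p, hpa, hpc⟩ := hex
    have hp : Atom M o p := mem_atoms.1 hpa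
    have hpos : 0 < p := hM.pos hp.1
    have : NeZero p := ⟨hpos.ne'⟩
    set A₁ := A.filter fun b => p ∣ b with hA₁
    set A₀ := A.filter fun b => ¬ p ∣ b with hA₀
    set M₁ := M.filter fun b => p ∣ b with hM₁
    set M₀ := M.filter fun b => ¬ p ∣ b with hM₀
    have sub1 : A₁ ⊆ M₁ := Finset.filter_subset_filter _ hA
    have sub0 : A₀ ⊆ M₀ := Finset.filter_subset_filter _ hA
    have G1 : Glc M₁ := hM.yes hp.1
    have G0 : Glc M₀ := hM.no ho hod hp
    have hMs : M₁.card + M₀.card = M.card :=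
      Finset.card_filter_add_card_filter_not (s := M) fun b => p ∣ b
    have hAs : A₁.card + A₀.card = A.card :=
      Finset.card_filter_add_card_filter_not (s := A) fun b => p ∣ b
    have p1 := G1.1.card_pos
    have p0 := G0.1.card_pos
    by_cases h0e : A₀.Nonempty
    swap
    · have hA0 : A₀ = ∅ := Finset.not_nonempty_iff_eq_empty.1 h0e
      have hAA : A₁ = A := by
        refine Finset.filter_true_of_mem fun b hb => ?_
        by_contra hcon
        have : b ∈ A₀ := Finset.mem_filter.2 ⟨hb, hcon⟩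
        rw [hA0] at this
        exact absurd this (Finset.notMem_empty b)
      obtain ⟨μ, f1, f2, f3⟩ := ih M₁.card (by omega) M₁ rfl G1 A (hAA ▸ sub1) hAn
      refine ⟨μ, f1, f2, f3.mono ?_⟩
      have h5 : Real.log M₁.card ≤ Real.log M.card :=
        Real.log_le_log (by exact_mod_cast p1) (by exact_mod_cast (by omega))
      have h6 := mul_le_mul_of_nonneg_left h5 hγ0
      linarith
    by_cases h1e : A₁.Nonempty
    swap
    · have hA1 : A₁ = ∅ := Finset.not_nonempty_iff_eq_empty.1 h1e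
      have hAA : A₀ = A := by
        refine Finset.filter_true_of_mem fun b hb hcon => ?_
        have : b ∈ A₁ := Finset.mem_filter.2 ⟨hb, hcon⟩
        rw [hA1] at this
        exact absurd this (Finset.notMem_empty b)
      obtain ⟨μ, f1, f2, f3⟩ := ih M₀.card (by omega) M₀ rfl G0 A (hAA ▸ sub0) hAn
      refine ⟨μ, f1, f2, f3.mono ?_⟩
      have h5 : Real.log M₀.card ≤ Real.log M.card :=
        Real.log_le_log (by exact_mod_cast p0) (by exact_mod_cast (by omega))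
      have h6 := mul_le_mul_of_nonneg_left h5 hγ0
      linarith
    obtain ⟨μ₁, l1, b1, g1⟩ := ih M₁.card (by omega) M₁ rfl G1 A₁ sub1 h1e
    obtain ⟨μ₀, l0, b0, g0⟩ := ih M₀.card (by omega) M₀ rfl G0 A₀ sub0 h0e
    have hd : Disjoint A₁ A₀ := Finset.disjoint_filter_filter_not _ _ _
    have hun : A₁ ∪ A₀ = A := Finset.filter_union_filter_not_eq _ A
    have c1 : (0 : ℝ) < A₁.card := by exact_mod_cast h1e.card_pos
    have c0 : (0 : ℝ) < A₀.card := by exact_mod_cast h0e.card_pos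
    have cs : (A₁.card : ℝ) + A₀.card = A.card := by exact_mod_cast hAs
    have cA : (0 : ℝ) < A.card := by linarith
    have d1 : (0 : ℝ) < M₁.card := by exact_mod_cast p1
    have d0 : (0 : ℝ) < M₀.card := by exact_mod_cast p0
    have ds : (M₁.card : ℝ) + M₀.card = M.card := by exact_mod_cast hMs
    have dM : (0 : ℝ) < M.card := by linarith
    set x : ℝ := A₁.card / A.card with hx
    have hx' : 1 - x = A₀.card / A.card := by rw [hx]; field_simp; linarith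
    have hx0 : 0 < x := by positivity
    have hy0 : 0 < 1 - x := by rw [hx']; positivity
    have hx1 : x < 1 := by linarith
    have q0 : ∀ a ∈ A₀, ¬ p ∣ a := fun a ha => (Finset.mem_filter.1 ha).2
    have q1 : ∀ a ∈ A₁, p ∣ a := fun a ha => (Finset.mem_filter.1 ha).2
    set ξ : ZMod p → ℝ := res p A₀ μ₀ with hξ
    have hξz : ξ 0 = 0 := res_zero q0
    have hξp : PD ξ := res_pd l0
    have hPsi0 : 0 ≤ Psi x (1 - x) := Psi_nonneg hx0.le hy0.le
    obtain ⟨g, hg, hcase⟩ : ∃ g : ℝ,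
        (∀ w : ZMod p → ℝ, PD w → g ≤ Inf x w ξ + e * x * Hw w) ∧
        ((1 - ε / 2) * Psi x (1 - x) ≤ g ∨
          (0 ≤ g ∧ y₀ ≤ 1 - x ∧ Real.log M₀.card + l ≤ Real.log M.card)) := by
      by_cases hn : 1 - y₀ ≤ x
      · exact ⟨(1 - ε / 2) * Psi x (1 - x),
          fun w hw => (hloc p w ξ hw hξp hξz x hx0 hx1).2.1 hn, Or.inl le_rfl⟩
      · push Not at hn
        refine ⟨0, fun w hw => (hloc p w ξ hw hξp hξz x hx0 hx1).1,
          Or.inr ⟨le_rfl, by linarith, ?_⟩⟩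
        rcases hpc with hc | hc
        · exfalso
          have : 1 - x ≤ y₀ := by
            rw [hx', div_le_iff₀ cA]
            exact hc
          linarith
        · have h3 := Real.log_le_log d0 hc
          rw [Real.log_mul (Real.exp_pos _).ne' dM.ne', Real.log_exp] at h3
          linarith
    refine ⟨fun a => x * μ₁ a + (1 - x) * μ₀ a, ?_, ?_, ?_⟩
    · rw [← hun]
      exact mix_law l1 l0 hd hx0.le hx1.le
    · exact mix_le l1 l0 hd cA hx hx' b1 b0
    · have hmain := hS e he A₁ A₀ μ₁ μ₀ l1 l0 p q1 q0 x _ _ g hx0 hx1 g1 g0 hg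
      rw [hun] at hmain
      refine hmain.mono ?_
      exact join_num (hγ.trans hγ₁) hε h1 rfl hx0 hx1 hPsi0 (Psi_le_log_two hx0.le hx1.le)
        (ent_id c1 c0 cs hx) (gibbs d1 d0 ds hx0 hx1) (Real.log_le_log d1 (by linarith))
        hl0 hyl hcase
  exact fun M hM A hA hAn => key M.card M rfl hM A hA hAn

theorem base (hE1 : S_E1) {e : ℝ} (he : 0 < e) : CL e 1 1 0 := by
  intro M hM A hA hAn
  refine uniform hE1 he hAn le_rfl ?_
  have cA : (0 : ℝ) < A.card := by exact_mod_cast hAn.card_pos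
  have h1 : Real.log A.card ≤ Real.log M.card :=
    Real.log_le_log cA (by exact_mod_cast Finset.card_le_card hA)
  linarith

theorem claim (hS : S_SPLIT) (hE1 : S_E1) (hE3 : S_E3) (hI : S_INJ) {e ε : ℝ}
    (he : 0 < e) (hε : 0 < ε) (hε1 : ε ≤ 1) : ∃ γ C : ℝ, 1 ≤ γ ∧ 0 ≤ C ∧ CL e ε γ C := by
  obtain ⟨y₀, τ, β, hy₀, hy₁, hτ, hβ, hloc⟩ := loc (1 - ε / 2) e (by linarith) he
  set c : ℝ := ε * y₀ ^ 2 / 16 with hc
  have hc0 : 0 < c := by positivity
  have key : ∀ n : ℕ, ∃ γ C : ℝ, 1 ≤ γ ∧ 0 ≤ C ∧ CL e (max ε (1 - n * c)) γ C := by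
    intro n
    induction n with
    | zero =>
      refine ⟨1, 0, le_rfl, le_rfl, ?_⟩
      have : max ε (1 - ((0 : ℕ) : ℝ) * c) = 1 := by
        rw [Nat.cast_zero, zero_mul, sub_zero, max_eq_right hε1]
      rw [this]
      exact base hE1 he
    | succ n ih =>
      obtain ⟨γ, C, h1, h2, h3⟩ := ih
      obtain ⟨γ₁, C₁, g1, g2, g3⟩ := boot hS hE1 hE3 hI he hε (le_max_left _ _) h1 h2 hy₀ hy₁ hτ hβ
        hloc h3
      refine ⟨γ₁, C₁, h1.trans g1, h2.trans g2, g3 _ (le_max_left _ _) ?_⟩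
      rw [← hc]
      push_cast
      rcases le_total ε (1 - n * c) with h | h
      · rw [max_eq_right h]
        exact le_trans (by linarith) (le_max_right _ _)
      · rw [max_eq_left h]
        exact le_trans (by linarith) (le_max_left _ _)
  obtain ⟨n, hn⟩ := exists_nat_gt (1 / c)
  obtain ⟨γ, C, h1, h2, h3⟩ := key n
  refine ⟨γ, C, h1, h2, ?_⟩
  have : max ε (1 - (n : ℝ) * c) = ε := by
    apply max_eq_left
    rw [div_lt_iff₀ hc0] at hn
    linarith
  rwa [this] at h3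

end Pool.Agent.T2h42.R
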