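import Pool.Agent.T2h42.R.Loc
import Pool.Agent.T2h42.Tree.Main

/-!
Laws on finite sets of positive integers, the entropy gain of a sum, and the hits of a member
along a decreasing list of atoms.
-/

set_option autoImplicit false

namespace Pool.Agent.T2h42.R

open Finset
open scoped Pointwise

/-- `μ` is a law on the finite set `A` -/
structure Law (A : Finset ℕ) (μ : ℕ → ℝ) : Prop where
  nn : ∀ a, 0 ≤ μ a
  out : ∀ a, a ∉ A → μ a = 0
  sm : ∑ a ∈ A, μ a = 1

/-- the weighted number of representations `z = a + r` -/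
noncomputable def Nw (A : Finset ℕ) (μ : ℕ → ℝ) (R : Finset ℤ) (z : ℤ) : ℝ :=
  ∑ a ∈ A, if z - (a : ℤ) ∈ R then μ a else 0

/-- the entropy of `a + r` minus the entropy of `r`, for `a` of law `μ` and `r` uniform in `R` -/
noncomputable def gain (A : Finset ℕ) (μ : ℕ → ℝ) (R : Finset ℤ) : ℝ :=
  -(∑ z ∈ Tree.toInt A + R, Nw A μ R z * Real.log (Nw A μ R z)) / R.card

/-- the gain is at least `v`, up to `e` times the entropy of `r` -/
def Good (e : ℝ) (A : Finset ℕ) (μ : ℕ → ℝ) (v : ℝ) : Prop :=
  ∀ R : Finset ℤ, R.Nonempty → v ≤ gain A μ R + e * Real.log R.card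

/-- the law of the residue -/
noncomputable def res (q : ℕ) (A : Finset ℕ) (μ : ℕ → ℝ) (c : ZMod q) : ℝ :=
  ∑ a ∈ A, if ((a : ℕ) : ZMod q) = c then μ a else 0

/-- the divisibility pattern -/
def bits (L : List ℕ) (a : ℕ) : List Bool := L.map fun p => decide (p ∣ a)

/-- the number of hits: the members `p` of the list not dividing `a` for which the residue of `a`
modulo `p` lies in the set attached to the divisibility pattern of `a` before `p` -/
def hits (F : List Bool → Finset ℕ) : List ℕ → ℕ → ℕ
  | [], _ => 0
  | p :: L, a =>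
      if p ∣ a then hits (fun b => F (true :: b)) L a
      else (if a % p ∈ F [] then 1 else 0) + hits (fun b => F (false :: b)) L a

end Pool.Agent.T2h42.R
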