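import Pool.Agent.T2h42.R.Phase

/-!
A node at which every atom is missed by a positive proportion of the members.
-/

set_option autoImplicit false

namespace Pool.Agent.T2h42.R

open Finset
open Pool.Agent.T2h42.Tree
open H633R5.FS (Psi Psi_nonneg Psi_one Psi_le Psi_le_log_two)

/-- the uniform law -/
theorem uniform (hE1 : S_E1) {e : ℝ} (he : 0 < e) {A : Finset ℕ} (hA : A.Nonempty) {C v : ℝ}
    (hC : 0 ≤ C) (hv : v ≤ 0) : ∃ μ : ℕ → ℝ, Law A μ ∧ (∀ a, μ a * A.card ≤ Real.exp C) ∧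
      Good e A μ v := by
  have cA : (0 : ℝ) < A.card := by exact_mod_cast hA.card_pos
  have hL : Law A (fun a => if a ∈ A then 1 / (A.card : ℝ) else 0) := by
    refine ⟨fun a => ?_, fun a ha => if_neg ha, ?_⟩
    · show 0 ≤ if a ∈ A then 1 / (A.card : ℝ) else 0
      split_ifs <;> positivity
    · rw [Finset.sum_congr rfl (g := fun _ => 1 / (A.card : ℝ)) fun a ha => if_pos ha,
        Finset.sum_const, nsmul_eq_mul]
      field_simp
  refine ⟨_, hL, fun a => ?_, fun R hR => ?_⟩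
  · show (if a ∈ A then 1 / (A.card : ℝ) else 0) * A.card ≤ Real.exp C
    have h1 : 1 ≤ Real.exp C := Real.one_le_exp hC
    split_ifs
    · rw [one_div_mul_cancel cA.ne']; exact h1
    · rw [zero_mul]; exact (Real.exp_pos C).le
  · have h1 := hE1 A _ hL R hR
    have h2 : 0 ≤ e * Real.log R.card := mul_nonneg he.le (Real.log_natCast_nonneg _)
    linarith

theorem card_log {Λ : Finset ℕ} {o : ℕ} (hΛ : Glc Λ) {l : ℝ}
    (h : ∀ p ∈ atoms Λ o, Real.exp (-l) * Λ.card ≤ (Λ.filter fun a => ¬ p ∣ a).card) :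
    Real.log Λ.card ≤ (atoms Λ o).card * l := by
  have h1 := hΛ.avoid_card (Real.exp_pos (-l)).le (atoms Λ o) h
  have h2 : ((avoid Λ (atoms Λ o)).card : ℝ) ≤ 1 := by
    have := Finset.card_le_card (hΛ.avoid_atoms (o := o))
    rw [Finset.card_singleton] at this
    exact_mod_cast this
  have c : (0 : ℝ) < Λ.card := by exact_mod_cast hΛ.1.card_pos
  rw [← Real.exp_nat_mul] at h1
  have h3 : (Λ.card : ℝ) * Real.exp ((atoms Λ o).card * -l) ≤ 1 := h1.trans h2
  have h4 := Real.log_le_log (by positivity) h3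
  rw [Real.log_mul c.ne' (Real.exp_pos _).ne', Real.log_exp, Real.log_one] at h4
  linarith

theorem markov {T A : Finset ℕ} {y : ℝ} (hy : 0 ≤ y) (hy1 : y ≤ 1)
    (h : ∀ p ∈ T, y * A.card ≤ (A.filter fun a => ¬ p ∣ a).card) :
    y / 2 * A.card ≤
      (A.filter fun a => y / 2 * T.card ≤ ((T.filter fun p => ¬ p ∣ a).card : ℝ)).card := by
  set A' := A.filter fun a => y / 2 * T.card ≤ ((T.filter fun p => ¬ p ∣ a).card : ℝ) with hA'
  rcases T.eq_empty_or_nonempty with rfl | hT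
  · have : A' = A := Finset.filter_true_of_mem fun a _ => by simp
    rw [this]
    have : (0 : ℝ) ≤ A.card := by positivity
    nlinarith
  have cT : (0 : ℝ) < T.card := by exact_mod_cast hT.card_pos
  have h1 : ∑ p ∈ T, y * (A.card : ℝ) ≤ ∑ a ∈ A, ((T.filter fun p => ¬ p ∣ a).card : ℝ) := by
    refine (Finset.sum_le_sum h).trans (le_of_eq ?_)
    simp only [Finset.card_filter]
    push_cast
    rw [Finset.sum_comm]
  rw [Finset.sum_const, nsmul_eq_mul] at h1
  have h2 : ∑ a ∈ A, ((T.filter fun p => ¬ p ∣ a).card : ℝ) ≤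
      ∑ a ∈ A, ((if a ∈ A' then (T.card : ℝ) else 0) + y / 2 * T.card) := by
    refine Finset.sum_le_sum fun a ha => ?_
    have h0 : 0 ≤ y / 2 * (T.card : ℝ) := by positivity
    by_cases haA : a ∈ A'
    · rw [if_pos haA]
      have : ((T.filter fun p => ¬ p ∣ a).card : ℝ) ≤ T.card := by
        exact_mod_cast Finset.card_filter_le _ _
      linarith
    · rw [if_neg haA, zero_add]
      by_contra hcon
      push Not at hcon
      exact haA (Finset.mem_filter.2 ⟨ha, hcon.le⟩)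
  rw [Finset.sum_add_distrib, Finset.sum_ite_mem, Finset.sum_const, Finset.sum_const,
    nsmul_eq_mul, nsmul_eq_mul, Finset.inter_eq_right.2 (Finset.filter_subset _ _)] at h2
  have h3 : (T.card : ℝ) * (y / 2 * A.card) ≤ T.card * A'.card := by nlinarith
  exact le_of_mul_le_mul_left h3 cT

theorem hits_le (F : List Bool → Finset ℕ) (L : List ℕ) (a : ℕ) : hits F L a ≤ L.length := by
  induction L generalizing F with
  | nil => simp [hits]
  | cons p L ih =>
    rw [hits, List.length_cons]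
    split_ifs
    · exact (ih _).trans (Nat.le_succ _)
    · have := ih (fun b => F (false :: b)); omega
    · have := ih (fun b => F (false :: b)); omega

/-- the expected number of hits -/
theorem hits_mean {Λ A : Finset ℕ} {μ : ℕ → ℝ} (hμ : Law A μ) (hAΛ : A ⊆ Λ) {E ρ d : ℝ}
    (hb : ∀ a, μ a * A.card ≤ E) (hA : A.Nonempty) (F : List Bool → Finset ℕ) (L : List ℕ)
    (hd : 0 ≤ d)
    (hc : ((Λ.filter fun a => d * L.length ≤ (hits F L a : ℝ)).card : ℝ) * E ≤ ρ * A.card) :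
    ∑ a ∈ A, μ a * (hits F L a : ℝ) ≤ (d + ρ) * L.length := by
  have cA : (0 : ℝ) < A.card := by exact_mod_cast hA.card_pos
  set H := A.filter fun a => d * L.length ≤ (hits F L a : ℝ) with hH
  have hm : (0 : ℝ) ≤ L.length := by positivity
  have h1 : ∑ a ∈ A, μ a * (hits F L a : ℝ) ≤
      ∑ a ∈ A, (μ a * (d * L.length) + if a ∈ H then μ a * L.length else 0) := by
    refine Finset.sum_le_sum fun a ha => ?_
    have h0 := hμ.nn a
    by_cases haH : a ∈ H
    · rw [if_pos haH]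
      have : (hits F L a : ℝ) ≤ L.length := by exact_mod_cast hits_le F L a
      have h2 := mul_le_mul_of_nonneg_left this h0
      have h3 : 0 ≤ μ a * (d * L.length) := by positivity
      linarith
    · rw [if_neg haH, add_zero]
      refine mul_le_mul_of_nonneg_left ?_ h0
      by_contra hcon
      push Not at hcon
      exact haH (Finset.mem_filter.2 ⟨ha, hcon.le⟩)
  rw [Finset.sum_add_distrib, ← Finset.sum_mul, hμ.sm, one_mul, Finset.sum_ite_mem,
    Finset.inter_eq_right.2 (Finset.filter_subset _ _), ← Finset.sum_mul] at h1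
  have h2 : (∑ a ∈ H, μ a) ≤ ρ := by
    have h3 : (∑ a ∈ H, μ a) * A.card ≤ H.card * E := by
      rw [Finset.sum_mul]
      calc ∑ a ∈ H, μ a * A.card ≤ ∑ _a ∈ H, E := Finset.sum_le_sum fun a _ => hb a
        _ = H.card * E := by rw [Finset.sum_const, nsmul_eq_mul]
    have hE : 0 ≤ E := by
      obtain ⟨a, ha⟩ := hA
      exact le_trans (mul_nonneg (hμ.nn a) cA.le) (hb a)
    have h4 : (H.card : ℝ) ≤ (Λ.filter fun a => d * L.length ≤ (hits F L a : ℝ)).card := by
      exact_mod_cast Finset.card_le_card (Finset.filter_subset_filter _ hAΛ)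
    have h5 := mul_le_mul_of_nonneg_right h4 hE
    have h6 : (∑ a ∈ H, μ a) * A.card ≤ ρ * A.card := by linarith
    exact le_of_mul_le_mul_right h6 cA
  have h3 := mul_le_mul_of_nonneg_right h2 hm
  nlinarith

theorem Law.ext' {A B : Finset ℕ} {μ : ℕ → ℝ} (hAB : A ⊆ B) (h : Law A μ) : Law B μ := by
  refine ⟨h.nn, fun a ha => h.out a fun h' => ha (hAB h'), ?_⟩
  rw [← Finset.sum_subset hAB fun a _ ha => h.out a ha]
  exact h.sm

theorem miss_eq {T : Finset ℕ} (a : ℕ) :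
    ((T.sort (· ≥ ·)).filter fun p => ¬ p ∣ a).length = (T.filter fun p => ¬ p ∣ a).card := by
  have h1 : (((T.sort (· ≥ ·)).filter fun p => ¬ p ∣ a)).toFinset =
      T.filter fun p => ¬ p ∣ a := by
    ext x
    simp
  rw [← h1, List.toFinset_card_of_nodup]
  exact (Finset.sort_nodup _ _).filter _

theorem dense (hS : S_SPLIT) (hE1 : S_E1) (hE3 : S_E3) (hI : S_INJ) {e ε δ γ C y₀ τ β : ℝ}
    (he : 0 < e)
    (hε : 0 < ε) (hεδ : ε ≤ δ) (hγ : 1 ≤ γ) (hC : 0 ≤ C)
    (hy₀ : 0 < y₀) (hy₁ : y₀ ≤ 1 / 4) (hτ : 0 < τ) (hβ : 0 < β)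
    (hloc : LocP (1 - ε / 2) e y₀ τ β) (hCL : CL e δ γ C) :
    ∃ γ₁ C₁ : ℝ, γ ≤ γ₁ ∧ C ≤ C₁ ∧ ∀ (δ' : ℝ), 0 ≤ δ' → δ - ε * y₀ ^ 2 / 16 ≤ δ' →
      ∀ (Λ : Finset ℕ) (o : ℕ), Glc Λ → o ∈ Λ →
      (∀ a ∈ Λ, o ∣ a) → ∀ A : Finset ℕ, A ⊆ Λ → A.Nonempty →
      (∀ p ∈ atoms Λ o, y₀ * A.card ≤ (A.filter fun a => ¬ p ∣ a).card) →
      (∀ p ∈ atoms Λ o, Real.exp (-(2 * Real.log 2 / y₀)) * Λ.card ≤
        (Λ.filter fun a => ¬ p ∣ a).card) →
      ∃ μ : ℕ → ℝ, Law A μ ∧ (∀ a, μ a * A.card ≤ Real.exp C₁) ∧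
        Good e A μ ((1 + γ₁) * Real.log A.card - (γ₁ + δ') * Real.log Λ.card - C₁) := by
  have hlog2 : 0 < Real.log 2 := Real.log_pos (by norm_num)
  have hδ : 0 < δ := by linarith
  set d : ℝ := δ * y₀ ^ 2 * β / 16 with hd
  have hd0 : 0 < d := by positivity
  obtain ⟨c₄, m₀, hc₄, hinj⟩ := hI d ⌊1 / τ⌋₊ hd0
  set l : ℝ := 2 * Real.log 2 / y₀ with hl
  have hl0 : 0 < l := by positivity
  set γ₁ : ℝ := max γ (2 * l / c₄) with hγ₁
  have hγ₁1 : γ ≤ γ₁ := le_max_left _ _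
  have hγ₁2 : 2 * l / c₄ ≤ γ₁ := le_max_right _ _
  set m₁ : ℕ := ⌈2 * (C + Real.log (1 / d)) / c₄⌉₊ with hm₁
  set M₀ : ℕ := max m₀ m₁ with hM₀
  have hw0 : 0 ≤ Real.log (2 / y₀) := by
    apply Real.log_nonneg
    rw [le_div_iff₀ hy₀]; linarith
  set w : ℝ := Real.log (2 / y₀) with hw
  refine ⟨γ₁, C + (1 + γ₁) * w + M₀ * l, hγ₁1, ?_, ?_⟩
  · have : 0 ≤ (1 + γ₁) * w := mul_nonneg (by linarith) hw0
    have : 0 ≤ (M₀ : ℝ) * l := by positivity
    linarith
  intro δ' hδ'0 hδ' Λ o hΛ ho hod A hAΛ hA hmA hmΛ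
  set m : ℕ := (atoms Λ o).card with hm
  have hcl := card_log hΛ hmΛ
  rw [← hm] at hcl
  have hmk := markov hy₀.le (by linarith : y₀ ≤ 1) hmA
  rw [← hm] at hmk
  set A' := A.filter fun a => y₀ / 2 * (m : ℝ) ≤
    (((atoms Λ o).filter fun p => ¬ p ∣ a).card : ℝ) with hA'
  have cA : (0 : ℝ) < A.card := by exact_mod_cast hA.card_pos
  have cA' : (0 : ℝ) < A'.card := lt_of_lt_of_le (by positivity) hmk
  have cΛ : (0 : ℝ) < Λ.card := by exact_mod_cast hΛ.1.card_pos
  have hA'n : A'.Nonempty := Finset.card_pos.1 (by exact_mod_cast cA')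
  have hA'A : A' ⊆ A := Finset.filter_subset _ _
  set x := Real.log A.card with hx
  set x' := Real.log A'.card with hx'
  set z := Real.log Λ.card with hz
  have hz0 : 0 ≤ z := Real.log_natCast_nonneg _
  have hxz : x ≤ z := Real.log_le_log cA (by exact_mod_cast Finset.card_le_card hAΛ)
  have hxx' : x ≤ x' + w := by
    rw [hw, hx', ← Real.log_mul cA'.ne' (by positivity)]
    apply Real.log_le_log cA
    rw [← mul_div_assoc, le_div_iff₀ hy₀]
    linarith
  have hM₀l : 0 ≤ (M₀ : ℝ) * l := by positivity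
  have hγw : 0 ≤ (1 + γ₁) * w := mul_nonneg (by linarith) hw0
  have hm0 : (0 : ℝ) ≤ m := by positivity
  by_cases hcase : M₀ ≤ m ∧ z - c₄ * m / 2 ≤ x'
  swap
  · -- the trivial cases
    refine uniform hE1 he hA (by linarith) ?_
    have h1 : (1 + γ₁) * x - (γ₁ + δ') * z ≤ z + γ₁ * (x - z) := by
      have : 0 ≤ δ' * z := by positivity
      nlinarith
    rcases not_and_or.1 hcase with hc | hc
    · push Not at hc
      have h2 : z ≤ M₀ * l := hcl.trans
        (mul_le_mul_of_nonneg_right (by exact_mod_cast hc.le) hl0.le)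
      have h3 : γ₁ * (x - z) ≤ 0 :=
        mul_nonpos_of_nonneg_of_nonpos (by linarith) (by linarith)
      linarith
    · push Not at hc
      have h2 : γ₁ * (x - z) ≤ γ₁ * (w - c₄ * m / 2) :=
        mul_le_mul_of_nonneg_left (by linarith) (by linarith)
      have h3 : 2 * l ≤ γ₁ * c₄ := by
        rwa [div_le_iff₀ hc₄] at hγ₁2
      have h4 : 2 * l * m ≤ γ₁ * c₄ * m := mul_le_mul_of_nonneg_right h3 hm0
      nlinarith
  obtain ⟨hc1, hc2⟩ := hcase
  -- the list of atoms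
  set L : List ℕ := (atoms Λ o).sort (· ≥ ·) with hL
  have hLl : L.length = m := Finset.length_sort _
  have hLn : L.Nodup := Finset.sort_nodup _ _
  have hLp : L.Pairwise (fun p q => q < p) := (Finset.sortedGT_sort (atoms Λ o)).pairwise
  have hLa : ∀ p ∈ L, Atom Λ o p := fun p hp => mem_atoms.1 ((Finset.mem_sort _).1 hp)
  obtain ⟨μ, F, f1, f2, f3, f4⟩ := phase hS (a := 1 - ε / 2) he hδ hγ (by linarith) hy₀ hτ hβ
    hloc hCL hΛ ho hod L hLn hLa Λ (Sub.top hΛ ho hod hLa) A' (hA'A.trans hAΛ) hA'n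
    ⌈y₀ / 2 * (m : ℝ)⌉₊ (by
      intro b hb
      rw [hL, miss_eq]
      exact Nat.ceil_le.2 (Finset.mem_filter.1 hb).2)
  rw [← hx', ← hz] at f4
  have hmean := hits_mean (Λ := Λ) f1 (hA'A.trans hAΛ) (ρ := d) (d := d) f2 hA'n F L hd0.le (by
    have h1 := hinj Λ o hΛ ho hod L hLp hLa
      (by rw [hLl]; exact (le_max_left _ _).trans hc1) F f3
    rw [hLl] at h1 ⊢
    have h2 : Real.exp (C - c₄ * m / 2) ≤ d := by
      rw [← Real.le_log_iff_exp_le hd0]
      have h3 : 2 * (C + Real.log (1 / d)) / c₄ ≤ m :=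
        (Nat.le_ceil _).trans (by exact_mod_cast (le_max_right _ _).trans hc1)
      rw [div_le_iff₀ hc₄, one_div, Real.log_inv] at h3
      linarith
    have h4 : Λ.card * Real.exp (-(c₄ * m / 2)) ≤ A'.card := by
      rw [← Real.exp_log cΛ, ← Real.exp_add, ← hz]
      rw [← Real.le_log_iff_exp_le cA', ← hx']
      linarith
    have e1 : Real.exp (-(c₄ * m)) * Real.exp C =
        Real.exp (C - c₄ * m / 2) * Real.exp (-(c₄ * m / 2)) := by
      rw [← Real.exp_add, ← Real.exp_add]; congr 1; ring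
    calc ((Λ.filter fun a => d * (m : ℝ) ≤ (hits F L a : ℝ)).card : ℝ) * Real.exp C
        ≤ Λ.card * Real.exp (-(c₄ * m)) * Real.exp C :=
          mul_le_mul_of_nonneg_right h1 (Real.exp_pos _).le
      _ = Real.exp (C - c₄ * m / 2) * (Λ.card * Real.exp (-(c₄ * m / 2))) := by
          rw [mul_assoc, e1]; ring
      _ ≤ d * A'.card := mul_le_mul h2 h4 (by positivity) hd0.le)
  rw [hLl] at hmean
  refine ⟨μ, f1.ext' hA'A, ?_, ?_⟩
  · intro a
    have h1 : μ a * A.card ≤ 2 / y₀ * (μ a * A'.card) := by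
      have h2 : (A.card : ℝ) ≤ 2 / y₀ * A'.card := by
        rw [div_mul_eq_mul_div, le_div_iff₀ hy₀]
        linarith
      have := mul_le_mul_of_nonneg_left h2 (f1.nn a)
      linarith
    have h2 : 2 / y₀ * (μ a * A'.card) ≤ 2 / y₀ * Real.exp C :=
      mul_le_mul_of_nonneg_left (f2 a) (by positivity)
    have h3 : 2 / y₀ * Real.exp C = Real.exp (w + C) := by
      rw [Real.exp_add, hw, Real.exp_log (by positivity)]
    refine (h1.trans h2).trans (h3.le.trans (Real.exp_le_exp.2 ?_))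
    have : w ≤ (1 + γ₁) * w := by nlinarith
    linarith
  · have hgood : Good e A μ ((1 + γ) * x' - (γ + δ) * z - C +
        δ / 2 * Real.log 2 * ⌈y₀ / 2 * (m : ℝ)⌉₊ -
        Real.log 2 / (y₀ * β) * ∑ b ∈ A', μ b * (hits F L b : ℝ)) := by
      intro R hR
      rw [hE3 A' A μ hA'A f1 R hR]
      exact f4 R hR
    refine hgood.mono ?_
    have g1 : δ / 2 * Real.log 2 * (y₀ / 2 * m) ≤
        δ / 2 * Real.log 2 * ⌈y₀ / 2 * (m : ℝ)⌉₊ :=
      mul_le_mul_of_nonneg_left (Nat.le_ceil _) (by positivity)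
    have g2 : Real.log 2 / (y₀ * β) * ∑ b ∈ A', μ b * (hits F L b : ℝ) ≤
        Real.log 2 / (y₀ * β) * ((d + d) * m) :=
      mul_le_mul_of_nonneg_left hmean (by positivity)
    have g3 : Real.log 2 / (y₀ * β) * ((d + d) * m) = δ * y₀ * Real.log 2 / 8 * m := by
      rw [hd]; field_simp; ring
    have g4 : y₀ * z ≤ 2 * Real.log 2 * m := by
      have : (m : ℝ) * l = 2 * Real.log 2 * m / y₀ := by rw [hl]; ring
      rw [this, le_div_iff₀ hy₀] at hcl
      linarith
    have g5 : ε * y₀ / 16 * (y₀ * z) ≤ ε * y₀ / 16 * (2 * Real.log 2 * m) :=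
      mul_le_mul_of_nonneg_left g4 (by positivity)
    have g6 : ε * (y₀ * Real.log 2 / 8 * m) ≤ δ * (y₀ * Real.log 2 / 8 * m) :=
      mul_le_mul_of_nonneg_right hεδ (by positivity)
    have g7 : 0 ≤ (δ' + ε * y₀ ^ 2 / 16 - δ) * z := mul_nonneg (by linarith) hz0
    have g8 : 0 ≤ (γ₁ - γ) * (z - x) := mul_nonneg (by linarith) (by linarith)
    have g9 : (1 + γ) * x ≤ (1 + γ) * (x' + w) :=
      mul_le_mul_of_nonneg_left hxx' (by linarith)
    have g10 : (1 + γ) * w ≤ (1 + γ₁) * w := mul_le_mul_of_nonneg_right (by linarith) hw0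
    nlinarith

end Pool.Agent.T2h42.R
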