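import Pool.Agent.T2h42.R.Stm

/-!
The entropy gain of a sum with a law: nonnegativity, upper bound by the doubling, extension of the
support, and the splitting inequality along a divisor (helper1, for the board t42).
-/

set_option autoImplicit false

namespace Pool.Agent.T2h42.R

open Finset
open scoped Pointwise
open Pool.Agent.T2h42.Tree (toInt mem_toInt)
open H633R5.FS (Psi Psi_eq Psi_one Psi_fiber Psi_smul)

theorem Nw_nonneg {A : Finset ℕ} {μ : ℕ → ℝ} (h : ∀ a, 0 ≤ μ a) (R : Finset ℤ) (z : ℤ) :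
    0 ≤ Nw A μ R z :=
  Finset.sum_nonneg fun a _ => by split_ifs; exacts [h a, le_rfl]

theorem Nw_le_one {A : Finset ℕ} {μ : ℕ → ℝ} (h : Law A μ) (R : Finset ℤ) (z : ℤ) :
    Nw A μ R z ≤ 1 := by
  rw [← h.sm]
  exact Finset.sum_le_sum fun a _ => by split_ifs; exacts [le_rfl, h.nn a]

theorem mem_add_toInt {A : Finset ℕ} {R : Finset ℤ} {a : ℕ} {r : ℤ} (ha : a ∈ A) (hr : r ∈ R) :
    (a : ℤ) + r ∈ toInt A + R :=
  Finset.add_mem_add (mem_toInt.2 ⟨a, ha, rfl⟩) hr

theorem Nw_zero {A : Finset ℕ} {μ : ℕ → ℝ} {R : Finset ℤ} {z : ℤ} (h : z ∉ toInt A + R) :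
    Nw A μ R z = 0 := by
  unfold Nw
  refine Finset.sum_eq_zero fun a ha => ?_
  rw [if_neg]
  intro h'
  apply h
  have := mem_add_toInt ha h'
  rwa [add_sub_cancel] at this

theorem Nw_ext {A B : Finset ℕ} {μ : ℕ → ℝ} (hAB : A ⊆ B) (h : ∀ a, a ∉ A → μ a = 0)
    (R : Finset ℤ) (z : ℤ) : Nw B μ R z = Nw A μ R z := by
  unfold Nw
  symm
  refine Finset.sum_subset hAB fun a _ ha => ?_
  rw [h a ha]
  split_ifs <;> rfl

theorem sum_Nw_mul (A : Finset ℕ) (μ : ℕ → ℝ) (R Z : Finset ℤ)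
    (hZ : ∀ a ∈ A, ∀ r ∈ R, (a : ℤ) + r ∈ Z) (φ : ℤ → ℝ) :
    ∑ z ∈ Z, Nw A μ R z * φ z = ∑ a ∈ A, μ a * ∑ r ∈ R, φ ((a : ℤ) + r) := by
  unfold Nw
  simp only [Finset.sum_mul]
  rw [Finset.sum_comm]
  refine Finset.sum_congr rfl fun a ha => ?_
  have h1 : ∑ r ∈ R, φ ((a : ℤ) + r) = ∑ z ∈ R.image (fun r => (a : ℤ) + r), φ z := by
    rw [Finset.sum_image]
    intro a _ b _ hab
    exact add_left_cancel hab
  rw [h1]
  have h2 : R.image (fun r => (a : ℤ) + r) ⊆ Z := by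
    intro z hz
    obtain ⟨r, hr, rfl⟩ := Finset.mem_image.1 hz
    exact hZ a ha r hr
  rw [← Finset.sum_subset h2, Finset.mul_sum]
  · refine Finset.sum_congr rfl fun z hz => ?_
    obtain ⟨r, hr, rfl⟩ := Finset.mem_image.1 hz
    rw [if_pos (by rw [add_sub_cancel_left]; exact hr)]
  · intro z _ hz
    rw [if_neg, zero_mul]
    intro h
    exact hz (Finset.mem_image.2 ⟨z - a, h, by ring⟩)

theorem sum_Nw {A : Finset ℕ} {μ : ℕ → ℝ} (h : Law A μ) (R Z : Finset ℤ)
    (hZ : ∀ a ∈ A, ∀ r ∈ R, (a : ℤ) + r ∈ Z) : ∑ z ∈ Z, Nw A μ R z = R.card := by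
  have h1 := sum_Nw_mul A μ R Z hZ (fun _ => 1)
  simp only [mul_one, Finset.sum_const, nsmul_eq_mul] at h1
  rw [h1, ← Finset.sum_mul, h.sm, one_mul]

/-- the entropy may be computed on any larger set -/
theorem sum_ext (A : Finset ℕ) (μ : ℕ → ℝ) (R Z : Finset ℤ) (hZ : toInt A + R ⊆ Z) :
    ∑ z ∈ toInt A + R, Nw A μ R z * Real.log (Nw A μ R z) =
      ∑ z ∈ Z, Nw A μ R z * Real.log (Nw A μ R z) := by
  refine Finset.sum_subset hZ fun z _ hz => ?_
  rw [Nw_zero hz, zero_mul]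

theorem add_mono_toInt {A B : Finset ℕ} (h : A ⊆ B) (R : Finset ℤ) :
    toInt A + R ⊆ toInt B + R :=
  Finset.add_subset_add_right (Pool.Agent.T2h42.Tree.toInt_mono h)

theorem gain_eq (A : Finset ℕ) (μ : ℕ → ℝ) (R Z : Finset ℤ) (hZ : toInt A + R ⊆ Z) :
    gain A μ R = -(∑ z ∈ Z, Nw A μ R z * Real.log (Nw A μ R z)) / R.card := by
  unfold gain
  rw [sum_ext A μ R Z hZ]

theorem e1 : S_E1 := by
  intro A μ h R hR
  unfold gain
  refine div_nonneg ?_ (Nat.cast_nonneg _)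
  rw [neg_nonneg]
  refine Finset.sum_nonpos fun z _ => ?_
  exact mul_nonpos_of_nonneg_of_nonpos (Nw_nonneg h.nn R z)
    (Real.log_nonpos (Nw_nonneg h.nn R z) (Nw_le_one h R z))

theorem e2 : S_E2 := by
  intro A μ h R hR
  have hA : A.Nonempty := by
    rw [Finset.nonempty_iff_ne_empty]
    rintro rfl
    have := h.sm
    simp at this
  have hS : (toInt A + R).Nonempty := (Pool.Agent.T2h42.Tree.toInt_nonempty hA).add hR
  have cR : (0 : ℝ) < R.card := by exact_mod_cast hR.card_pos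
  have cS : (0 : ℝ) < (toInt A + R).card := by exact_mod_cast hS.card_pos
  set M : ℝ := R.card / (toInt A + R).card with hM
  have hM0 : 0 < M := by positivity
  have h1 : ∀ z ∈ toInt A + R, -(Nw A μ R z * Real.log (Nw A μ R z)) ≤
      M - Nw A μ R z - Nw A μ R z * Real.log M := by
    intro z _
    rcases (Nw_nonneg h.nn R z : 0 ≤ Nw A μ R z).eq_or_lt with h0 | h0
    · rw [← h0]; simp; exact hM0.le
    · have h2 := Real.log_le_sub_one_of_pos (by positivity : 0 < M / Nw A μ R z)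
      rw [Real.log_div hM0.ne' h0.ne'] at h2
      have h3 := mul_le_mul_of_nonneg_left h2 h0.le
      have h4 : Nw A μ R z * (M / Nw A μ R z - 1) = M - Nw A μ R z := by
        field_simp
      rw [h4] at h3
      linarith
  have h2 := Finset.sum_le_sum h1
  rw [Finset.sum_neg_distrib, Finset.sum_sub_distrib, Finset.sum_sub_distrib, Finset.sum_const,
    nsmul_eq_mul, ← Finset.sum_mul,
    sum_Nw h R (toInt A + R) (fun a ha r hr => mem_add_toInt ha hr)] at h2
  have h3 : ((toInt A + R).card : ℝ) * M = R.card := by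
    rw [hM]; field_simp
  have h4 : Real.log M = -Real.log (((toInt A + R).card : ℝ) / R.card) := by
    rw [hM, ← Real.log_inv, inv_div]
  rw [h3, h4] at h2
  unfold gain
  rw [div_le_iff₀ cR]
  linarith

theorem e3 : S_E3 := by
  intro A B μ hAB h R hR
  rw [gain_eq A μ R (toInt B + R) (add_mono_toInt hAB R)]
  unfold gain
  simp only [Nw_ext hAB h.out]

/-! ### splitting -/

/-- `∑ N log N` as a double sum -/
theorem gain_double (A : Finset ℕ) (μ : ℕ → ℝ) (R : Finset ℤ) (hR : R.Nonempty) :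
    (R.card : ℝ) * gain A μ R =
      -∑ r ∈ R, ∑ a ∈ A, μ a * Real.log (Nw A μ R ((a : ℤ) + r)) := by
  have cR : (0 : ℝ) < R.card := by exact_mod_cast hR.card_pos
  unfold gain
  rw [sum_Nw_mul A μ R _ (fun a ha r hr => mem_add_toInt ha hr)
    (fun z => Real.log (Nw A μ R z))]
  rw [mul_div_cancel₀ _ cR.ne', Finset.sum_comm]
  congr 1
  refine Finset.sum_congr rfl fun a _ => ?_
  rw [Finset.mul_sum]

section split

variable {q : ℕ} [NeZero q]

/-- the law of the residue of the reference set -/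
noncomputable def wR (q : ℕ) [NeZero q] (R : Finset ℤ) (b : ZMod q) : ℝ :=
  ((R.filter fun r : ℤ => (r : ZMod q) = b).card : ℝ) / R.card

theorem wR_PD (R : Finset ℤ) (hR : R.Nonempty) : PD (wR q R) := by
  have h2 : (0 : ℝ) < R.card := by exact_mod_cast hR.card_pos
  refine ⟨fun z => by unfold wR; positivity, ?_⟩
  unfold wR
  rw [← Finset.sum_div, div_eq_one_iff_eq h2.ne']
  have := Finset.card_eq_sum_card_fiberwise (f := fun r : ℤ => (r : ZMod q)) (s := R)
    (t := Finset.univ) (fun _ _ => Finset.mem_coe.2 (Finset.mem_univ _))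
  rw [this]
  push_cast
  rfl

theorem card_mul_wR (R : Finset ℤ) (hR : R.Nonempty) (b : ZMod q) :
    (R.card : ℝ) * wR q R b = (R.filter fun r : ℤ => (r : ZMod q) = b).card := by
  have h2 : (0 : ℝ) < R.card := by exact_mod_cast hR.card_pos
  unfold wR
  field_simp

/-- the count on a residue class -/
theorem sum_class (A : Finset ℕ) (μ : ℕ → ℝ) (R : Finset ℤ) (hR : R.Nonempty) (Z : Finset ℤ)
    (hZ : ∀ a ∈ A, ∀ r ∈ R, (a : ℤ) + r ∈ Z) (b : ZMod q) :
    ∑ z ∈ Z, (if (z : ZMod q) = b then Nw A μ R z else 0) =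
      R.card * ∑ a ∈ A, μ a * wR q R (b - (a : ZMod q)) := by
  have h1 : ∀ z ∈ Z, (if (z : ZMod q) = b then Nw A μ R z else 0) =
      Nw A μ R z * (if (z : ZMod q) = b then 1 else 0) := fun z _ => by split_ifs <;> simp
  rw [Finset.sum_congr rfl h1, sum_Nw_mul A μ R Z hZ (fun z => if (z : ZMod q) = b then 1 else 0),
    Finset.mul_sum]
  refine Finset.sum_congr rfl fun a _ => ?_
  have h2 : ∑ r ∈ R, (if (((a : ℤ) + r : ℤ) : ZMod q) = b then (1 : ℝ) else 0) =
      R.card * wR q R (b - (a : ZMod q)) := by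
    rw [card_mul_wR R hR, Finset.card_filter]
    push_cast
    refine Finset.sum_congr rfl fun r _ => ?_
    congr 1
    apply propext
    constructor
    · intro h; rw [← h]; ring
    · intro h; rw [h]; ring
  rw [h2]
  ring

/-- for multiples of `q` the gain is an average over the residue classes of `R` -/
theorem gain_classes (A : Finset ℕ) (μ : ℕ → ℝ) (hq : ∀ a ∈ A, q ∣ a) (R : Finset ℤ)
    (hR : R.Nonempty) :
    (R.card : ℝ) * gain A μ R = ∑ b : ZMod q,
      ((R.filter fun r : ℤ => (r : ZMod q) = b).card : ℝ) *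
        gain A μ (R.filter fun r : ℤ => (r : ZMod q) = b) := by
  rw [gain_double A μ R hR, ← Finset.sum_fiberwise R (fun r : ℤ => (r : ZMod q)),
    ← Finset.sum_neg_distrib]
  refine Finset.sum_congr rfl fun b _ => ?_
  rcases (R.filter fun r : ℤ => (r : ZMod q) = b).eq_empty_or_nonempty with h | h
  · rw [h]; simp
  rw [gain_double A μ _ h]
  congr 1
  refine Finset.sum_congr rfl fun r hr => Finset.sum_congr rfl fun a ha => ?_
  obtain ⟨hr1, hr2⟩ := Finset.mem_filter.1 hr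
  congr 2
  unfold Nw
  refine Finset.sum_congr rfl fun a' ha' => ?_
  congr 1
  apply propext
  rw [Finset.mem_filter]
  constructor
  · intro h1
    refine ⟨h1, ?_⟩
    have e1 : ((a : ℕ) : ZMod q) = 0 := (ZMod.natCast_eq_zero_iff _ _).2 (hq a ha)
    have e2 : ((a' : ℕ) : ZMod q) = 0 := (ZMod.natCast_eq_zero_iff _ _).2 (hq a' ha')
    push_cast
    rw [e1, e2, hr2]
    ring
  · intro h1
    exact h1.1

theorem gain_one_ge (e v : ℝ) (A : Finset ℕ) (μ : ℕ → ℝ) (hq : ∀ a ∈ A, q ∣ a)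
    (hg : Good e A μ v) (R : Finset ℤ) (hR : R.Nonempty) :
    v - e * Real.log R.card + e * Hw (wR q R) ≤ gain A μ R := by
  have cR : (0 : ℝ) < R.card := by exact_mod_cast hR.card_pos
  have hPD := wR_PD (q := q) R hR
  have h1 : ∀ b : ZMod q, (R.card : ℝ) * (wR q R b * (v - e * Real.log R.card) +
      e * (wR q R b * Real.log (1 / wR q R b))) ≤
      ((R.filter fun r : ℤ => (r : ZMod q) = b).card : ℝ) *
        gain A μ (R.filter fun r : ℤ => (r : ZMod q) = b) := by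
    intro b
    rcases (R.filter fun r : ℤ => (r : ZMod q) = b).eq_empty_or_nonempty with h | h
    · have : wR q R b = 0 := by unfold wR; rw [h]; simp
      rw [this, h]; simp
    · have cb : (0 : ℝ) < (R.filter fun r : ℤ => (r : ZMod q) = b).card := by
        exact_mod_cast h.card_pos
      have hw : 0 < wR q R b := by unfold wR; positivity
      have h2 := hg _ h
      rw [← card_mul_wR R hR b] at h2 ⊢
      rw [Real.log_mul cR.ne' hw.ne'] at h2
      have h3 : Real.log (1 / wR q R b) = -Real.log (wR q R b) := by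
        rw [one_div, Real.log_inv]
      rw [h3]
      have h4 : v - e * Real.log R.card - e * Real.log (wR q R b) ≤
          gain A μ (R.filter fun r : ℤ => (r : ZMod q) = b) := by linarith
      have h5 := mul_le_mul_of_nonneg_left h4 (mul_pos cR hw).le
      calc _ = (R.card : ℝ) * wR q R b * (v - e * Real.log R.card -
            e * Real.log (wR q R b)) := by ring
        _ ≤ _ := h5
  have h2 := Finset.sum_le_sum fun b (_ : b ∈ (Finset.univ : Finset (ZMod q))) => h1 b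
  rw [← gain_classes A μ hq R hR, ← Finset.mul_sum, Finset.sum_add_distrib, ← Finset.sum_mul,
    hPD.sm, one_mul, ← Finset.mul_sum] at h2
  exact le_of_mul_le_mul_left h2 cR

theorem xlog {x N : ℝ} (hx : 0 < x) : x * N * Real.log (x * N) =
    x * (N * Real.log N) + x * Real.log x * N := by
  rcases eq_or_ne N 0 with h | h
  · rw [h]; simp
  · rw [Real.log_mul hx.ne' h]; ring

theorem split : S_SPLIT := by
  intro e he A₁ A₀ μ₁ μ₀ hL1 hL0 q _ hq1 hq0 x v₁ v₀ g hx hx1 hG1 hG0 hg R hR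
  have cR : (0 : ℝ) < R.card := by exact_mod_cast hR.card_pos
  have hx' : 0 < 1 - x := by linarith
  set A : Finset ℕ := A₁ ∪ A₀ with hA
  set μ : ℕ → ℝ := fun a => x * μ₁ a + (1 - x) * μ₀ a with hμ
  have hs1 : A₁ ⊆ A := Finset.subset_union_left
  have hs0 : A₀ ⊆ A := Finset.subset_union_right
  set Z : Finset ℤ := toInt A + R with hZ
  have hZ1 : ∀ a ∈ A₁, ∀ r ∈ R, (a : ℤ) + r ∈ Z := fun a ha r hr => mem_add_toInt (hs1 ha) hr
  have hZ0 : ∀ a ∈ A₀, ∀ r ∈ R, (a : ℤ) + r ∈ Z := fun a ha r hr => mem_add_toInt (hs0 ha) hr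
  -- the mixture
  have hN : ∀ z, Nw A μ R z = x * Nw A₁ μ₁ R z + (1 - x) * Nw A₀ μ₀ R z := by
    intro z
    rw [← Nw_ext hs1 hL1.out, ← Nw_ext hs0 hL0.out]
    unfold Nw
    rw [Finset.mul_sum, Finset.mul_sum, ← Finset.sum_add_distrib]
    refine Finset.sum_congr rfl fun a _ => ?_
    split_ifs
    · rfl
    · ring
  have hp1 : ∀ z, 0 ≤ x * Nw A₁ μ₁ R z := fun z => mul_nonneg hx.le (Nw_nonneg hL1.nn R z)
  have hp0 : ∀ z, 0 ≤ (1 - x) * Nw A₀ μ₀ R z := fun z => mul_nonneg hx'.le (Nw_nonneg hL0.nn R z)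
  have id1 : ∑ z ∈ Z, Nw A μ R z * Real.log (Nw A μ R z) =
      ∑ z ∈ Z, Psi (x * Nw A₁ μ₁ R z) ((1 - x) * Nw A₀ μ₀ R z) +
      (x * ∑ z ∈ Z, Nw A₁ μ₁ R z * Real.log (Nw A₁ μ₁ R z) + x * Real.log x * R.card) +
      ((1 - x) * ∑ z ∈ Z, Nw A₀ μ₀ R z * Real.log (Nw A₀ μ₀ R z) +
        (1 - x) * Real.log (1 - x) * R.card) := by
    have s1 : x * Real.log x * (R.card : ℝ) = x * Real.log x * ∑ z ∈ Z, Nw A₁ μ₁ R z := by
      rw [sum_Nw hL1 R Z hZ1]
    have s0 : (1 - x) * Real.log (1 - x) * (R.card : ℝ) =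
        (1 - x) * Real.log (1 - x) * ∑ z ∈ Z, Nw A₀ μ₀ R z := by
      rw [sum_Nw hL0 R Z hZ0]
    rw [s1, s0]
    simp only [Finset.mul_sum, ← Finset.sum_add_distrib]
    refine Finset.sum_congr rfl fun z _ => ?_
    rw [hN z, Psi_eq (hp1 z) (hp0 z)]
    have a1 := xlog (N := Nw A₁ μ₁ R z) hx
    have a0 := xlog (N := Nw A₀ μ₀ R z) hx'
    linarith
  have g1 : gain A₁ μ₁ R = -(∑ z ∈ Z, Nw A₁ μ₁ R z * Real.log (Nw A₁ μ₁ R z)) / R.card :=
    gain_eq A₁ μ₁ R Z (add_mono_toInt hs1 R)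
  have g0 : gain A₀ μ₀ R = -(∑ z ∈ Z, Nw A₀ μ₀ R z * Real.log (Nw A₀ μ₀ R z)) / R.card :=
    gain_eq A₀ μ₀ R Z (add_mono_toInt hs0 R)
  have gA : gain A μ R = x * gain A₁ μ₁ R + (1 - x) * gain A₀ μ₀ R + Psi x (1 - x) -
      (∑ z ∈ Z, Psi (x * Nw A₁ μ₁ R z) ((1 - x) * Nw A₀ μ₀ R z)) / R.card := by
    rw [g1, g0]
    unfold gain
    rw [← hZ, id1, Psi_one, one_div, one_div, Real.log_inv, Real.log_inv]
    field_simp
    ring
  -- the fibres
  have h2 := Psi_fiber Z (fun z : ℤ => (z : ZMod q)) (fun z => x * Nw A₁ μ₁ R z)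
    (fun z => (1 - x) * Nw A₀ μ₀ R z) (fun z _ => hp1 z) (fun z _ => hp0 z)
  have h3 : ∀ b : ZMod q, ∑ z ∈ Z, (if (z : ZMod q) = b then x * Nw A₁ μ₁ R z else 0) =
      (R.card : ℝ) * (x * wR q R b) := by
    intro b
    have e1 : ∀ z ∈ Z, (if (z : ZMod q) = b then x * Nw A₁ μ₁ R z else 0) =
        x * (if (z : ZMod q) = b then Nw A₁ μ₁ R z else 0) := fun z _ => by split_ifs <;> simp
    rw [Finset.sum_congr rfl e1, ← Finset.mul_sum, sum_class A₁ μ₁ R hR Z hZ1 b]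
    have e2 : ∑ a ∈ A₁, μ₁ a * wR q R (b - (a : ZMod q)) = ∑ a ∈ A₁, μ₁ a * wR q R b := by
      refine Finset.sum_congr rfl fun a ha => ?_
      have e3 : ((a : ℕ) : ZMod q) = 0 := (ZMod.natCast_eq_zero_iff _ _).2 (hq1 a ha)
      rw [e3, sub_zero]
    rw [e2, ← Finset.sum_mul, hL1.sm]
    ring
  have h4 : ∀ b : ZMod q, ∑ z ∈ Z, (if (z : ZMod q) = b then (1 - x) * Nw A₀ μ₀ R z else 0) =
      (R.card : ℝ) * ((1 - x) * ∑ c, res q A₀ μ₀ c * wR q R (b - c)) := by
    intro b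
    have e1 : ∀ z ∈ Z, (if (z : ZMod q) = b then (1 - x) * Nw A₀ μ₀ R z else 0) =
        (1 - x) * (if (z : ZMod q) = b then Nw A₀ μ₀ R z else 0) :=
      fun z _ => by split_ifs <;> simp
    rw [Finset.sum_congr rfl e1, ← Finset.mul_sum, sum_class A₀ μ₀ R hR Z hZ0 b]
    have e2 : ∑ a ∈ A₀, μ₀ a * wR q R (b - (a : ZMod q)) =
        ∑ c, res q A₀ μ₀ c * wR q R (b - c) := by
      unfold res
      simp only [Finset.sum_mul]
      rw [Finset.sum_comm]
      refine Finset.sum_congr rfl fun a _ => ?_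
      rw [Finset.sum_eq_single (a : ZMod q)]
      · rw [if_pos rfl]
      · intro c _ hc
        rw [if_neg (fun h => hc h.symm), zero_mul]
      · intro h; exact absurd (Finset.mem_univ _) h
    rw [e2]
    ring
  simp only [h3, h4, Psi_smul] at h2
  rw [← Finset.mul_sum] at h2
  have h5 : (∑ z ∈ Z, Psi (x * Nw A₁ μ₁ R z) ((1 - x) * Nw A₀ μ₀ R z)) / R.card ≤
      ∑ b : ZMod q, Psi (x * wR q R b) ((1 - x) * ∑ c, res q A₀ μ₀ c * wR q R (b - c)) := by
    rw [div_le_iff₀ cR]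
    linarith
  have h6 := hg (wR q R) (wR_PD R hR)
  unfold Inf at h6
  have h7 := gain_one_ge e v₁ A₁ μ₁ hq1 hG1 R hR
  have h8 := hG0 R hR
  have h9 := mul_le_mul_of_nonneg_left h7 hx.le
  have h10 : (1 - x) * (v₀ - e * Real.log R.card) ≤ (1 - x) * gain A₀ μ₀ R :=
    mul_le_mul_of_nonneg_left (by linarith) hx'.le
  rw [gA]
  nlinarith [h9, h10, h5, h6]

end split

end Pool.Agent.T2h42.R
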