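import Pool.Agent.T2h42.R.Boot
import Pool.Agent.T2h42.R.Ent
import Pool.Agent.T2h42.R.Blk
import Pool.Agent.T2h42.R.Inj
import Pool.Agent.T2h42.Tree.Fin

/-!
The final form: sums of elements of a set which is dense in a set closed under gcd and lcm.
-/

set_option autoImplicit false

namespace Pool.Agent.T2h42.R

open Finset
open Pool.Agent.T2h42.Tree
open scoped Pointwise

theorem inj_all : S_INJ := inj blk

/-- the logarithmic form of the sum bound -/
theorem dense_log (ε' : ℝ) (h0 : 0 < ε') (h1 : ε' < 1 / 2) : ∃ η C : ℝ, 0 < η ∧ 0 ≤ C ∧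
    ∀ Λ : Finset ℕ, Glc Λ → ∀ A : Finset ℕ, A ⊆ Λ → A.Nonempty →
      (1 - η) * Real.log Λ.card - Real.log 2 ≤ Real.log A.card →
      ∀ B : Finset ℤ, B.Nonempty →
        (1 - ε') * (Real.log A.card + Real.log B.card) - C ≤
          Real.log (((A.image fun a : ℕ => (a : ℤ)) + B).card : ℝ) := by
  have hlog2 : 0 < Real.log 2 := Real.log_pos (by norm_num)
  set ε₁ : ℝ := ε' / 2 with hε₁
  have hε₁0 : 0 < ε₁ := by positivity
  obtain ⟨γ, C, hγ, hC, hcl⟩ := claim split e1 e3 inj_all (e := ε') (ε := ε₁) h0 hε₁0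
    (by linarith)
  set η : ℝ := ε₁ / (2 * (γ + 1)) with hη
  have hη0 : 0 < η := div_pos hε₁0 (by linarith)
  have hηγ : 2 * η * (γ + 1) = ε₁ := by rw [hη]; field_simp
  have hη1 : η ≤ 1 / 2 := by nlinarith
  refine ⟨η, C + 2 * (γ + 1) * Real.log 2, hη0, ?_, ?_⟩
  · have : 0 ≤ 2 * (γ + 1) * Real.log 2 := mul_nonneg (by linarith) hlog2.le
    linarith
  intro Λ hΛ A hA hAn hd B hB
  obtain ⟨μ, f1, f2, f3⟩ := hcl Λ hΛ A hA hAn
  have g1 := f3 B hB
  have g2 := e2 A μ f1 B hB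
  have hI : toInt A = A.image fun a : ℕ => (a : ℤ) := by
    ext z; simp [mem_toInt]
  rw [hI] at g2
  have cB : (0 : ℝ) < B.card := by exact_mod_cast hB.card_pos
  have cS : (0 : ℝ) < ((A.image fun a : ℕ => (a : ℤ)) + B).card := by
    exact_mod_cast ((hAn.image _).add hB).card_pos
  rw [Real.log_div cS.ne' cB.ne'] at g2
  set x := Real.log A.card
  set z := Real.log Λ.card
  set b := Real.log B.card
  set s := Real.log (((A.image fun a : ℕ => (a : ℤ)) + B).card : ℝ)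
  have hx0 : 0 ≤ x := Real.log_natCast_nonneg _
  have hz0 : 0 ≤ z := Real.log_natCast_nonneg _
  have h3 : z ≤ (1 + 2 * η) * x + 2 * Real.log 2 := by
    -- `(1 - η) z ≤ x + log 2`
    have h4 : (1 - η) * z ≤ x + Real.log 2 := by linarith
    have h5 : (1 + 2 * η) * ((1 - η) * z) ≤ (1 + 2 * η) * (x + Real.log 2) :=
      mul_le_mul_of_nonneg_left h4 (by linarith)
    have h6 : 0 ≤ η * (1 - 2 * η) * z := mul_nonneg (mul_nonneg hη0.le (by linarith)) hz0
    have h7 : (1 + 2 * η) * Real.log 2 ≤ 2 * Real.log 2 :=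
      mul_le_mul_of_nonneg_right (by linarith) hlog2.le
    nlinarith
  have h4 : (γ + ε₁) * z ≤ (γ + ε₁) * ((1 + 2 * η) * x + 2 * Real.log 2) :=
    mul_le_mul_of_nonneg_left h3 (by linarith)
  have h5 : (γ + ε₁) * (2 * Real.log 2) ≤ (γ + 1) * (2 * Real.log 2) :=
    mul_le_mul_of_nonneg_right (by linarith) (by linarith)
  have h6 : (γ + ε₁) * (2 * η) * x ≤ (γ + 1) * (2 * η) * x := by
    apply mul_le_mul_of_nonneg_right _ hx0
    apply mul_le_mul_of_nonneg_right (by linarith) (by linarith)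
  have h7 : (γ + 1) * (2 * η) * x = ε₁ * x := by
    have : (γ + 1) * (2 * η) = ε₁ := by linarith
    rw [this]
  have h8 : ε' * x = 2 * ε₁ * x := by rw [hε₁]; ring
  nlinarith

/-- one sign -/
theorem one_sign (k : ℕ) (A P : Finset ℤ) (Q : Finset ℕ) (σ : ℤ) (hσ : σ * σ = 1)
    (hQ : ∀ a ∈ Q, σ * (a : ℤ) ∈ A) (B : Finset ℤ) (hP : P = B.image fun b => σ * b) :
    ((((Fintype.piFinset fun _ : Fin k => Q) ×ˢ P).image
        fun x => (∑ i, (x.1 i : ℤ)) + x.2).card : ℝ) ≤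
      ((((Fintype.piFinset fun _ : Fin k => A) ×ˢ B).image
        fun x => (∑ i, x.1 i) + x.2).card : ℝ) := by
  have hcard : (((Fintype.piFinset fun _ : Fin k => Q) ×ˢ P).image
        fun x => (∑ i, (x.1 i : ℤ)) + x.2).card ≤
      (((Fintype.piFinset fun _ : Fin k => A) ×ˢ B).image
        fun x => (∑ i, x.1 i) + x.2).card := by
    refine Finset.card_le_card_of_injOn (fun z => σ * z) ?_ ?_
    · intro z hz
      rw [Finset.mem_coe, Finset.mem_image] at hz
      obtain ⟨⟨f, p⟩, hfp, rfl⟩ := hz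
      rw [Finset.mem_product, Fintype.mem_piFinset, hP, Finset.mem_image] at hfp
      obtain ⟨hf, b, hb, hbp⟩ := hfp
      rw [Finset.mem_coe, Finset.mem_image]
      refine ⟨(fun i => σ * (f i : ℤ), b), ?_, ?_⟩
      · rw [Finset.mem_product, Fintype.mem_piFinset]
        exact ⟨fun i => hQ _ (hf i), hb⟩
      · show (∑ i, σ * (f i : ℤ)) + b = σ * ((∑ i, (f i : ℤ)) + p)
        have hbp' : σ * b = p := hbp
        rw [← hbp', mul_add, ← mul_assoc, hσ, one_mul, Finset.mul_sum]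
    · intro a _ b _ hab
      have h1 : σ * (σ * a) = σ * (σ * b) := congrArg (σ * ·) hab
      rwa [← mul_assoc, ← mul_assoc, hσ, one_mul, one_mul] at h1
  exact_mod_cast hcard

theorem rpow_half {n p s : ℝ} (hp : 0 < p) (hpn : p ≤ n) (hnp : n ≤ 2 * p) :
    min 1 ((1 / 2 : ℝ) ^ s) * n ^ s ≤ p ^ s := by
  have hn : 0 < n := by linarith
  rcases le_total 0 s with hs | hs
  · calc min 1 ((1 / 2 : ℝ) ^ s) * n ^ s ≤ (1 / 2 : ℝ) ^ s * n ^ s :=
          mul_le_mul_of_nonneg_right (min_le_right _ _) (by positivity)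
      _ = (1 / 2 * n) ^ s := by rw [← Real.mul_rpow (by norm_num) hn.le]
      _ ≤ p ^ s := Real.rpow_le_rpow (by positivity) (by linarith) hs
  · calc min 1 ((1 / 2 : ℝ) ^ s) * n ^ s ≤ 1 * n ^ s :=
          mul_le_mul_of_nonneg_right (min_le_left _ _) (by positivity)
      _ = n ^ s := one_mul _
      _ ≤ p ^ s := Real.rpow_le_rpow_of_nonpos hp hpn hs

theorem dense_sums (k : ℕ) (hk : 1 ≤ k) (ε : ℝ) (hε : 0 < ε) :
    ∃ η c : ℝ, 0 < η ∧ 0 < c ∧ ∀ Λ : Finset ℕ, (∀ a ∈ Λ, 0 < a) →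
      (∀ a ∈ Λ, ∀ b ∈ Λ, Nat.gcd a b ∈ Λ ∧ Nat.lcm a b ∈ Λ) →
      ∀ A : Finset ℤ, A.Nonempty → (∀ a ∈ A, a.natAbs ∈ Λ) →
      (Λ.card : ℝ) ^ (1 - η) ≤ A.card →
      ∀ B : Finset ℤ, B.Nonempty →
        c * (A.card : ℝ) ^ ((k : ℝ) - ε) * (B.card : ℝ) ^ (1 - ε) ≤
          ((((Fintype.piFinset fun _ : Fin k => A) ×ˢ B).image
            fun x => (∑ i, x.1 i) + x.2).card : ℝ) := by
  obtain ⟨ε', hε'0, hε'1, h⟩ := to_sums k hk ε hε
  obtain ⟨η, C, hη, hC, hd⟩ := dense_log ε' hε'0 hε'1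
  obtain ⟨c, hc, h1⟩ := h C hC
  refine ⟨η, c * min 1 ((1 / 2 : ℝ) ^ ((k : ℝ) - ε)), hη, ?_, ?_⟩
  · have : 0 < min 1 ((1 / 2 : ℝ) ^ ((k : ℝ) - ε)) := lt_min one_pos (by positivity)
    positivity
  intro Λ hpos hcl A hA hAΛ hcard B hB
  have cA : (0 : ℝ) < A.card := by exact_mod_cast hA.card_pos
  have hΛn : Λ.Nonempty := by
    obtain ⟨a, ha⟩ := hA
    exact ⟨_, hAΛ a ha⟩
  have hΛ : Glc Λ := ⟨hΛn, hpos, hcl⟩
  have cΛ : (0 : ℝ) < Λ.card := by exact_mod_cast hΛn.card_pos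
  have hlogA : (1 - η) * Real.log Λ.card ≤ Real.log A.card := by
    rw [← Real.log_rpow cΛ]
    exact Real.log_le_log (by positivity) hcard
  -- one of the signs
  obtain ⟨σ, hσ', hbig⟩ : ∃ σ : ℤ, (σ = 1 ∨ σ = -1) ∧
      A.card ≤ 2 * (A.filter fun a => 0 < σ * a).card := by
    have h2 : A.card = (A.filter fun a => 0 < (1 : ℤ) * a).card +
        (A.filter fun a => 0 < (-1 : ℤ) * a).card := by
      rw [← Finset.card_filter_add_card_filter_not (s := A) fun a => 0 < (1 : ℤ) * a]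
      congr 1
      congr 1
      refine Finset.filter_congr fun a ha => ?_
      have ha0 : a ≠ 0 := by
        rintro rfl
        exact absurd (hpos _ (hAΛ 0 ha)) (by simp)
      constructor
      · intro h; omega
      · intro h; omega
    rcases le_total (A.filter fun a => 0 < (1 : ℤ) * a).card
      (A.filter fun a => 0 < (-1 : ℤ) * a).card with h3 | h3
    · exact ⟨-1, Or.inr rfl, by omega⟩
    · exact ⟨1, Or.inl rfl, by omega⟩
  have hσ : σ * σ = 1 := by rcases hσ' with rfl | rfl <;> norm_num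
  set S := A.filter fun a => 0 < σ * a with hS
  set Q : Finset ℕ := S.image Int.natAbs with hQ
  have hval : ∀ a ∈ S, σ * (a.natAbs : ℤ) = a := by
    intro a ha
    have h4 := (Finset.mem_filter.1 ha).2
    rcases hσ' with rfl | rfl
    · rw [one_mul] at h4 ⊢
      exact Int.natAbs_of_nonneg h4.le
    · rw [neg_one_mul] at h4 ⊢
      rw [Int.ofNat_natAbs_of_nonpos (by linarith)]
      ring
  have hQc : Q.card = S.card := by
    refine Finset.card_image_of_injOn fun a ha b hb hab => ?_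
    rw [← hval a ha, ← hval b hb]
    exact congrArg (fun n : ℕ => σ * (n : ℤ)) hab
  have hSA : S.card ≤ A.card := Finset.card_filter_le _ _
  have hQpos : 0 < Q.card := by
    rw [hQc]
    have := hA.card_pos
    omega
  have hQn : Q.Nonempty := Finset.card_pos.1 hQpos
  have hQΛ : Q ⊆ Λ := by
    intro a ha
    obtain ⟨b, hb, rfl⟩ := Finset.mem_image.1 ha
    exact hAΛ b (Finset.mem_filter.1 hb).1
  have cQ : (0 : ℝ) < Q.card := by exact_mod_cast hQpos
  have hAQ : (A.card : ℝ) ≤ 2 * Q.card := by rw [hQc]; exact_mod_cast hbig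
  have hQA : (Q.card : ℝ) ≤ A.card := by rw [hQc]; exact_mod_cast hSA
  have hlogQ : (1 - η) * Real.log Λ.card - Real.log 2 ≤ Real.log Q.card := by
    have h4 := Real.log_le_log cA hAQ
    rw [Real.log_mul (by norm_num) cQ.ne'] at h4
    linarith
  have hBn : (B.image fun b => σ * b).Nonempty := hB.image _
  have hBc : (B.image fun b => σ * b).card = B.card := by
    refine Finset.card_image_of_injective _ fun a b hab => ?_
    have h1 : σ * (σ * a) = σ * (σ * b) := congrArg (σ * ·) hab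
    rwa [← mul_assoc, ← mul_assoc, hσ, one_mul, one_mul] at h1
  have h5 := h1 Q hQn (hd Λ hΛ Q hQΛ hQn hlogQ) (B.image fun b => σ * b) hBn
  rw [hBc] at h5
  have h6 := one_sign k A (B.image fun b => σ * b) Q σ hσ (by
    intro a ha
    obtain ⟨b, hb, rfl⟩ := Finset.mem_image.1 ha
    rw [hval b hb]
    exact (Finset.mem_filter.1 hb).1) B rfl
  have h7 := rpow_half (s := (k : ℝ) - ε) cQ hQA hAQ
  have h8 : c * min 1 ((1 / 2 : ℝ) ^ ((k : ℝ) - ε)) * (A.card : ℝ) ^ ((k : ℝ) - ε) ≤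
      c * (Q.card : ℝ) ^ ((k : ℝ) - ε) := by
    rw [mul_assoc]
    exact mul_le_mul_of_nonneg_left h7 hc.le
  exact (mul_le_mul_of_nonneg_right h8 (by positivity)).trans (h5.trans h6)

end Pool.Agent.T2h42.R
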