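import Pool.Agent.T2h42.R.Sub

/-!
Preparations for the induction: mixtures of laws, residues, numerical facts.
-/

set_option autoImplicit false

namespace Pool.Agent.T2h42.R

open Finset
open Pool.Agent.T2h42.Tree
open H633R5.FS (Psi Psi_nonneg Psi_one Psi_le Psi_le_log_two)

/-- the local inequality -/
def LocP (a e y₀ τ β : ℝ) : Prop :=
  ∀ (q : ℕ) [NeZero q] (w ξ : ZMod q → ℝ), PD w → PD ξ → ξ 0 = 0 →
    ∀ x : ℝ, 0 < x → x < 1 →
      0 ≤ Inf x w ξ + e * x * Hw w ∧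
      (1 - y₀ ≤ x → a * Psi x (1 - x) ≤ Inf x w ξ + e * x * Hw w) ∧
      (1 / 16 ≤ x → ∑ c, (if τ ≤ ξ c then ξ c else 0) < β →
        a * Psi x (1 - x) ≤ Inf x w ξ + e * x * Hw w)

theorem ent_id {n₁ n₀ n : ℝ} (h1 : 0 < n₁) (h0 : 0 < n₀) (hn : n₁ + n₀ = n) {x : ℝ}
    (hx : x = n₁ / n) :
    x * Real.log n₁ + (1 - x) * Real.log n₀ = Real.log n - Psi x (1 - x) := by
  have hn0 : 0 < n := by linarith
  have hx' : 1 - x = n₀ / n := by rw [hx]; field_simp; linarith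
  rw [Psi_one]
  have f0 : Real.log (1 / x) = Real.log n - Real.log n₁ := by
    rw [hx, one_div, Real.log_inv, Real.log_div h1.ne' hn0.ne']; ring
  have f1 : Real.log (1 / (1 - x)) = Real.log n - Real.log n₀ := by
    rw [hx', one_div, Real.log_inv, Real.log_div h0.ne' hn0.ne']; ring
  rw [f0, f1]
  ring

theorem gibbs {m₁ m₀ m : ℝ} (h1 : 0 < m₁) (h0 : 0 < m₀) (hm : m₁ + m₀ = m) {x : ℝ}
    (hx : 0 < x) (hx1 : x < 1) :
    x * Real.log m₁ + (1 - x) * Real.log m₀ ≤ Real.log m - Psi x (1 - x) := by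
  have hm0 : 0 < m := by linarith
  have hy : 0 < 1 - x := by linarith
  have t1 : Real.log (m₁ / (x * m)) ≤ m₁ / (x * m) - 1 :=
    Real.log_le_sub_one_of_pos (by positivity)
  have t0 : Real.log (m₀ / ((1 - x) * m)) ≤ m₀ / ((1 - x) * m) - 1 :=
    Real.log_le_sub_one_of_pos (by positivity)
  have s1 := mul_le_mul_of_nonneg_left t1 hx.le
  have s0 := mul_le_mul_of_nonneg_left t0 hy.le
  have e1 : x * (m₁ / (x * m) - 1) = m₁ / m - x := by field_simp
  have e0 : (1 - x) * (m₀ / ((1 - x) * m) - 1) = m₀ / m - (1 - x) := by field_simp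
  have e2 : m₁ / m + m₀ / m = 1 := by rw [← add_div, hm, div_self hm0.ne']
  rw [e1, Real.log_div h1.ne' (by positivity), Real.log_mul hx.ne' hm0.ne'] at s1
  rw [e0, Real.log_div h0.ne' (by positivity), Real.log_mul hy.ne' hm0.ne'] at s0
  rw [Psi_one, one_div, one_div, Real.log_inv, Real.log_inv]
  nlinarith

theorem small_x {x : ℝ} (hx : 0 < x) (hx1 : x < 1 / 16) :
    2 * Psi x (1 - x) ≤ (1 - x) * Real.log 2 := by
  have h1 := Psi_le hx (by linarith)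
  have h2 : Real.log (1 / (16 * x)) ≤ 1 / (16 * x) - 1 :=
    Real.log_le_sub_one_of_pos (by positivity)
  have h3 : Real.log (1 / (16 * x)) = Real.log (1 / x) - 4 * Real.log 2 := by
    rw [one_div, one_div, Real.log_inv, Real.log_inv, Real.log_mul (by norm_num) hx.ne',
      show (16 : ℝ) = 2 ^ 4 by norm_num, Real.log_pow]
    push_cast; ring
  rw [h3] at h2
  have h4 := mul_le_mul_of_nonneg_left h2 hx.le
  have h5 : x * (1 / (16 * x) - 1) = 1 / 16 - x := by field_simp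
  rw [h5] at h4
  have h6 : 0.693 ≤ Real.log 2 := by linarith [Real.log_two_gt_d9]
  have h7 : x * Real.log 2 ≤ 1 / 16 * Real.log 2 :=
    mul_le_mul_of_nonneg_right hx1.le (by linarith)
  nlinarith

theorem Good.mono {e : ℝ} {A : Finset ℕ} {μ : ℕ → ℝ} {v v' : ℝ} (h : Good e A μ v)
    (hv : v' ≤ v) : Good e A μ v' := fun R hR => hv.trans (h R hR)

theorem mix_law {A₁ A₀ : Finset ℕ} {μ₁ μ₀ : ℕ → ℝ} (h1 : Law A₁ μ₁) (h0 : Law A₀ μ₀)
    (hd : Disjoint A₁ A₀) {x : ℝ} (hx : 0 ≤ x) (hx1 : x ≤ 1) :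
    Law (A₁ ∪ A₀) (fun a => x * μ₁ a + (1 - x) * μ₀ a) := by
  refine ⟨fun a => ?_, fun a ha => ?_, ?_⟩
  · exact add_nonneg (mul_nonneg hx (h1.nn a)) (mul_nonneg (by linarith) (h0.nn a))
  · rw [Finset.mem_union, not_or] at ha
    show x * μ₁ a + (1 - x) * μ₀ a = 0
    rw [h1.out a ha.1, h0.out a ha.2]
    ring
  · rw [Finset.sum_union hd]
    have e1 : ∑ a ∈ A₁, (x * μ₁ a + (1 - x) * μ₀ a) = x := by
      rw [Finset.sum_congr rfl (g := fun a => x * μ₁ a) fun a ha => ?_, ← Finset.mul_sum, h1.sm,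
        mul_one]
      rw [h0.out a (Finset.disjoint_left.1 hd ha), mul_zero, add_zero]
    have e0 : ∑ a ∈ A₀, (x * μ₁ a + (1 - x) * μ₀ a) = 1 - x := by
      rw [Finset.sum_congr rfl (g := fun a => (1 - x) * μ₀ a) fun a ha => ?_, ← Finset.mul_sum,
        h0.sm, mul_one]
      rw [h1.out a (Finset.disjoint_right.1 hd ha), mul_zero, zero_add]
    rw [e1, e0]
    ring

theorem mix_le {A₁ A₀ : Finset ℕ} {μ₁ μ₀ : ℕ → ℝ} (h1 : Law A₁ μ₁) (h0 : Law A₀ μ₀)
    (hd : Disjoint A₁ A₀) {n x E : ℝ} (hn : 0 < n) (hx : x = A₁.card / n)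
    (hx' : 1 - x = A₀.card / n)
    (b1 : ∀ a, μ₁ a * A₁.card ≤ E) (b0 : ∀ a, μ₀ a * A₀.card ≤ E) (a : ℕ) :
    (x * μ₁ a + (1 - x) * μ₀ a) * n ≤ E := by
  by_cases ha : a ∈ A₁
  · rw [h0.out a (Finset.disjoint_left.1 hd ha), mul_zero, add_zero, hx]
    have := b1 a
    calc (A₁.card : ℝ) / n * μ₁ a * n = μ₁ a * A₁.card := by field_simp
      _ ≤ E := this
  · rw [h1.out a ha, mul_zero, zero_add, hx']
    have := b0 a
    calc (A₀.card : ℝ) / n * μ₀ a * n = μ₀ a * A₀.card := by field_simp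
      _ ≤ E := this

theorem sum_mix {A₁ A₀ : Finset ℕ} {μ₁ μ₀ : ℕ → ℝ} (h1 : Law A₁ μ₁) (h0 : Law A₀ μ₀)
    (hd : Disjoint A₁ A₀) (x : ℝ) (f : ℕ → ℝ) :
    ∑ a ∈ A₁ ∪ A₀, (x * μ₁ a + (1 - x) * μ₀ a) * f a =
      x * ∑ a ∈ A₁, μ₁ a * f a + (1 - x) * ∑ a ∈ A₀, μ₀ a * f a := by
  rw [Finset.sum_union hd, Finset.mul_sum, Finset.mul_sum]
  congr 1
  · refine Finset.sum_congr rfl fun a ha => ?_
    rw [h0.out a (Finset.disjoint_left.1 hd ha)]
    ring
  · refine Finset.sum_congr rfl fun a ha => ?_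
    rw [h1.out a (Finset.disjoint_right.1 hd ha)]
    ring

theorem res_sum {q : ℕ} [NeZero q] {A : Finset ℕ} {μ : ℕ → ℝ} (φ : ZMod q → ℝ) :
    ∑ c, res q A μ c * φ c = ∑ a ∈ A, μ a * φ (a : ZMod q) := by
  unfold res
  simp only [Finset.sum_mul]
  rw [Finset.sum_comm]
  refine Finset.sum_congr rfl fun a _ => ?_
  rw [Finset.sum_eq_single (a : ZMod q)]
  · rw [if_pos rfl]
  · intro b _ hb
    rw [if_neg (fun h => hb h.symm), zero_mul]
  · intro h
    exact absurd (Finset.mem_univ _) h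

theorem res_pd {q : ℕ} [NeZero q] {A : Finset ℕ} {μ : ℕ → ℝ} (h : Law A μ) :
    PD (res q A μ) := by
  refine ⟨fun c => Finset.sum_nonneg fun a _ => ?_, ?_⟩
  · split_ifs
    · exact h.nn a
    · exact le_rfl
  · have := res_sum (A := A) (μ := μ) (q := q) (fun _ => (1 : ℝ))
    simp only [mul_one] at this
    rw [this, h.sm]

theorem res_zero {q : ℕ} [NeZero q] {A : Finset ℕ} {μ : ℕ → ℝ} (h : ∀ a ∈ A, ¬ q ∣ a) :
    res q A μ 0 = 0 := by
  unfold res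
  refine Finset.sum_eq_zero fun a ha => if_neg fun h0 => h a ha ?_
  exact (ZMod.natCast_eq_zero_iff a q).1 h0

/-- the heavy residues -/
noncomputable def heavy (q : ℕ) [NeZero q] (A : Finset ℕ) (μ : ℕ → ℝ) (τ : ℝ) : Finset ℕ :=
  (Finset.univ.filter fun c : ZMod q => τ ≤ res q A μ c).image ZMod.val

theorem heavy_card {q : ℕ} [NeZero q] {A : Finset ℕ} {μ : ℕ → ℝ} (h : Law A μ) {τ : ℝ}
    (hτ : 0 < τ) : (heavy q A μ τ).card ≤ ⌊1 / τ⌋₊ := by
  refine Finset.card_image_le.trans (Nat.le_floor ?_)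
  rw [le_div_iff₀ hτ]
  have h1 : ∑ c ∈ Finset.univ.filter (fun c : ZMod q => τ ≤ res q A μ c), τ ≤
      ∑ c ∈ Finset.univ.filter (fun c : ZMod q => τ ≤ res q A μ c), res q A μ c :=
    Finset.sum_le_sum fun c hc => (Finset.mem_filter.1 hc).2
  rw [Finset.sum_const, nsmul_eq_mul] at h1
  have h2 := Finset.sum_le_univ_sum_of_nonneg (s := Finset.univ.filter
    (fun c : ZMod q => τ ≤ res q A μ c)) (res_pd (q := q) h).nn
  rw [(res_pd h).sm] at h2
  linarith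

theorem heavy_mass {q : ℕ} [NeZero q] {A : Finset ℕ} {μ : ℕ → ℝ} {τ : ℝ} :
    ∑ a ∈ A, μ a * (if a % q ∈ heavy q A μ τ then (1 : ℝ) else 0) =
      ∑ c, (if τ ≤ res q A μ c then res q A μ c else 0) := by
  have h1 : ∀ a : ℕ, a % q ∈ heavy q A μ τ ↔ τ ≤ res q A μ (a : ZMod q) := by
    intro a
    unfold heavy
    rw [Finset.mem_image]
    constructor
    · rintro ⟨c, hc, hca⟩
      rw [Finset.mem_filter] at hc
      have : c = (a : ZMod q) := by
        apply ZMod.val_injective q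
        rw [hca, ZMod.val_natCast]
      rw [← this]
      exact hc.2
    · intro hc
      exact ⟨(a : ZMod q), Finset.mem_filter.2 ⟨Finset.mem_univ _, hc⟩, ZMod.val_natCast _ _⟩
  have h2 := res_sum (A := A) (μ := μ) (q := q) (fun c => if τ ≤ res q A μ c then (1 : ℝ) else 0)
  have h3 : ∀ a ∈ A, μ a * (if a % q ∈ heavy q A μ τ then (1 : ℝ) else 0) =
      μ a * (if τ ≤ res q A μ (a : ZMod q) then (1 : ℝ) else 0) := by
    intro a _
    rw [if_congr (h1 a) rfl rfl]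
  rw [Finset.sum_congr rfl h3, ← h2]
  refine Finset.sum_congr rfl fun c _ => ?_
  split_ifs <;> simp

end Pool.Agent.T2h42.R
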