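import Pool.Agent.T2h42.R.Defs

/-!
Statements of the parts.
-/

set_option autoImplicit false

namespace Pool.Agent.T2h42.R

open Finset
open scoped Pointwise
open Pool.Agent.T2h42.Tree (Glc Atom toInt)

def S_E1 : Prop := ∀ (A : Finset ℕ) (μ : ℕ → ℝ), Law A μ → ∀ R : Finset ℤ, R.Nonempty →
  0 ≤ gain A μ R

def S_E2 : Prop := ∀ (A : Finset ℕ) (μ : ℕ → ℝ), Law A μ → ∀ R : Finset ℤ, R.Nonempty →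
  gain A μ R ≤ Real.log (((toInt A + R).card : ℝ) / R.card)

def S_E3 : Prop := ∀ (A B : Finset ℕ) (μ : ℕ → ℝ), A ⊆ B → Law A μ → ∀ R : Finset ℤ,
  R.Nonempty → gain B μ R = gain A μ R

def S_SPLIT : Prop := ∀ (e : ℝ), 0 < e → ∀ (A₁ A₀ : Finset ℕ) (μ₁ μ₀ : ℕ → ℝ),
  Law A₁ μ₁ → Law A₀ μ₀ → ∀ (q : ℕ) [NeZero q], (∀ a ∈ A₁, q ∣ a) → (∀ a ∈ A₀, ¬ q ∣ a) →
  ∀ x v₁ v₀ g : ℝ, 0 < x → x < 1 → Good e A₁ μ₁ v₁ → Good e A₀ μ₀ v₀ →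
  (∀ w : ZMod q → ℝ, PD w → g ≤ Inf x w (res q A₀ μ₀) + e * x * Hw w) →
  Good e (A₁ ∪ A₀) (fun a => x * μ₁ a + (1 - x) * μ₀ a) (x * v₁ + (1 - x) * v₀ + g)

def S_BLK : Prop := ∀ (Λ : Finset ℕ) (o : ℕ), Glc Λ → o ∈ Λ → (∀ a ∈ Λ, o ∣ a) →
  ∀ L₁ L₂ L₃ : List ℕ, (L₁ ++ L₂ ++ L₃).Pairwise (fun p q => q < p) →
  (∀ p ∈ L₁ ++ L₂ ++ L₃, Atom Λ o p) →
  ∀ (F : List Bool → Finset ℕ) (K : ℕ), (∀ b, (F b).card ≤ K) → ∀ r M : ℕ, 1 ≤ r →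
  (Λ.filter fun a => r ≤ hits (fun b => F (bits L₁ a ++ b)) L₂ a ∧
      M * L₂.length ≤ (L₃.filter fun p => ¬ p ∣ a).length).card * M ^ r ≤
    Λ.card * (K + 1) ^ L₂.length

def S_INJ : Prop := ∀ (δ : ℝ) (K : ℕ), 0 < δ → ∃ (c : ℝ) (m₀ : ℕ), 0 < c ∧
  ∀ (Λ : Finset ℕ) (o : ℕ), Glc Λ → o ∈ Λ → (∀ a ∈ Λ, o ∣ a) →
  ∀ L : List ℕ, L.Pairwise (fun p q => q < p) → (∀ p ∈ L, Atom Λ o p) → m₀ ≤ L.length →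
  ∀ (F : List Bool → Finset ℕ), (∀ b, (F b).card ≤ K) →
  ((Λ.filter fun a => δ * L.length ≤ (hits F L a : ℝ)).card : ℝ) ≤
    Λ.card * Real.exp (-(c * L.length))

end Pool.Agent.T2h42.R
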