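import Pool.Agent.T2h42.R.Stm

/-!
Sublattices closed under multiplication by the weights of a list of atoms.
-/

set_option autoImplicit false

namespace Pool.Agent.T2h42.R

open Finset
open Pool.Agent.T2h42.Tree

/-- a sublattice closed under multiplication by the weights of the atoms of the list -/
structure Sub (Λ : Finset ℕ) (o : ℕ) (L : List ℕ) (M : Finset ℕ) : Prop where
  sub : M ⊆ Λ
  cl : ∀ a ∈ M, ∀ b ∈ M, Nat.gcd a b ∈ M ∧ Nat.lcm a b ∈ M
  tg : ∀ a ∈ M, ∀ p ∈ L, ¬ p ∣ a → a * (p / o) ∈ M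

variable {Λ M : Finset ℕ} {o p : ℕ} {L : List ℕ}

theorem Sub.glc (hΛ : Glc Λ) (h : Sub Λ o L M) (hM : M.Nonempty) : Glc M :=
  ⟨hM, fun _ ha => hΛ.pos (h.sub ha), h.cl⟩

theorem Sub.yes (h : Sub Λ o (p :: L) M) : Sub Λ o L (M.filter fun a => p ∣ a) := by
  refine ⟨(Finset.filter_subset _ _).trans h.sub, ?_, ?_⟩
  · intro a ha b hb
    rw [Finset.mem_filter] at ha hb
    rw [Finset.mem_filter, Finset.mem_filter]
    exact ⟨⟨(h.cl a ha.1 b hb.1).1, Nat.dvd_gcd ha.2 hb.2⟩,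
      ⟨(h.cl a ha.1 b hb.1).2, ha.2.trans (Nat.dvd_lcm_left _ _)⟩⟩
  · intro a ha t ht hta
    rw [Finset.mem_filter] at ha ⊢
    exact ⟨h.tg a ha.1 t (List.mem_cons_of_mem _ ht) hta, ha.2.trans (Dvd.intro _ rfl)⟩

theorem Sub.no (hΛ : Glc Λ) (ho : o ∈ Λ) (hod : ∀ a ∈ Λ, o ∣ a) (hp : Atom Λ o p)
    (hL : ∀ t ∈ L, Atom Λ o t ∧ t ≠ p)
    (h : Sub Λ o (p :: L) M) : Sub Λ o L (M.filter fun a => ¬ p ∣ a) := by
  refine ⟨(Finset.filter_subset _ _).trans h.sub, ?_, ?_⟩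
  · intro a ha b hb
    rw [Finset.mem_filter] at ha hb
    rw [Finset.mem_filter, Finset.mem_filter]
    exact ⟨⟨(h.cl a ha.1 b hb.1).1, fun hd => ha.2 (hd.trans (Nat.gcd_dvd_left _ _))⟩,
      ⟨(h.cl a ha.1 b hb.1).2,
        hΛ.not_dvd_lcm ho hod hp (h.sub ha.1) (h.sub hb.1) ha.2 hb.2⟩⟩
  · intro a ha t ht hta
    rw [Finset.mem_filter] at ha ⊢
    refine ⟨h.tg a ha.1 t (List.mem_cons_of_mem _ ht) hta, ?_⟩
    have hT : ∀ q ∈ ({p, t} : Finset ℕ), Atom Λ o q := by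
      intro q hq
      rw [Finset.mem_insert, Finset.mem_singleton] at hq
      rcases hq with rfl | rfl
      · exact hp
      · exact (hL _ ht).1
    have hav : a ∈ avoid Λ {p, t} := by
      rw [mem_avoid]
      refine ⟨h.sub ha.1, fun q hq => ?_⟩
      rw [Finset.mem_insert, Finset.mem_singleton] at hq
      rcases hq with rfl | rfl
      · exact ha.2
      · exact hta
    have h1 := (hΛ.toggle ho hod hT hav {t} (by simp)).2 p (by simp)
      (by rw [Finset.mem_singleton]; exact fun h2 => (hL t ht).2 h2.symm)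
    rwa [Finset.prod_singleton] at h1

theorem Sub.card_le (hΛ : Glc Λ) (ho : o ∈ Λ) (hod : ∀ a ∈ Λ, o ∣ a) (hp : Atom Λ o p)
    (h : Sub Λ o (p :: L) M) :
    (M.filter fun a => ¬ p ∣ a).card ≤ (M.filter fun a => p ∣ a).card := by
  have hpo : 0 < p / o := by have := hΛ.one_lt ho hod hp; omega
  refine Finset.card_le_card_of_injOn (fun a => a * (p / o)) ?_ ?_
  · intro a ha
    rw [Finset.mem_coe, Finset.mem_filter] at ha
    rw [Finset.mem_coe, Finset.mem_filter]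
    refine ⟨h.tg a ha.1 p List.mem_cons_self ha.2, ?_⟩
    obtain ⟨a', ha'⟩ := hod a (h.sub ha.1)
    obtain ⟨w, hw⟩ := hod p hp.1
    have ho0 : 0 < o := hΛ.pos ho
    have e1 : p / o = w := by rw [hw, Nat.mul_div_cancel_left _ ho0]
    show p ∣ a * (p / o)
    rw [e1, ha', hw]
    exact ⟨a', by ring⟩
  · intro a _ b _ hab
    exact Nat.eq_of_mul_eq_mul_right hpo hab

theorem Sub.top (hΛ : Glc Λ) (ho : o ∈ Λ) (hod : ∀ a ∈ Λ, o ∣ a)
    (hL : ∀ t ∈ L, Atom Λ o t) : Sub Λ o L Λ := by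
  refine ⟨Finset.Subset.refl _, hΛ.2.2, ?_⟩
  intro a ha t ht hta
  have hT : ∀ q ∈ ({t} : Finset ℕ), Atom Λ o q := by
    intro q hq
    rw [Finset.mem_singleton] at hq
    rw [hq]
    exact hL t ht
  have hav : a ∈ avoid Λ {t} := by
    rw [mem_avoid]
    refine ⟨ha, fun q hq => ?_⟩
    rw [Finset.mem_singleton] at hq
    rw [hq]
    exact hta
  have h1 := (hΛ.toggle ho hod hT hav {t} (by simp)).1
  rwa [Finset.prod_singleton] at h1

end Pool.Agent.T2h42.R
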